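import Pool.Agent.Helper67.PHP.KL

/-! Changing an oracle according to a table given as advice. -/

set_option autoImplicit false

namespace Pool.Agent.Helper67.PHP

open Pool.Agent.NPC Pool.Agent.H622R2 Pool.Agent.H620R2.Gauge H529R3.Lev
open Pool.Agent.H591R3.PHG (strip poly_strip quant_succ)

/-! ### Algorithms in polynomial time -/

section

variable (M : Alg) (R : List Bool → List Bool → Bool → Bool)

/-- the changed answers -/
def ans (τ x a : List Bool) : List Bool :=
  a.foldl (fun s b => s ++ [R τ (M.D (pairBits x s)).tail b]) []

theorem length_ans (τ x a : List Bool) : (ans M R τ x a).length = a.length := by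
  unfold ans
  have key : ∀ (a s : List Bool), (a.foldl (fun s b => s ++ [R τ (M.D (pairBits x s)).tail b])
      s).length = s.length + a.length := by
    intro a
    induction a with
    | nil => intro s; rfl
    | cons b a ih =>
      intro s
      rw [List.foldl_cons, ih]
      simp
      omega
  rw [key]
  simp

theorem ans_concat (τ x a : List Bool) (b : Bool) : ans M R τ x (a ++ [b]) =
    ans M R τ x a ++ [R τ (M.D (pairBits x (ans M R τ x a))).tail b] := by
  unfold ans
  rw [List.foldl_append]
  rfl

variable {R}

theorem poly_ans (hR : Poly (fun p : List Bool × List Bool × Bool => R p.1 p.2.1 p.2.2)) :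
    Poly (fun v : List Bool × List Bool × List Bool => ans M R v.1 v.2.1 v.2.2) := by
  have hs : Poly (fun p : (List Bool × List Bool × List Bool) × List Bool × Bool => p.2.1) :=
    Poly.fst (Poly.snd Poly.id)
  have hb : Poly (fun p : (List Bool × List Bool × List Bool) × List Bool × Bool => p.2.2) :=
    Poly.snd (Poly.snd Poly.id)
  have ht : Poly (fun p : (List Bool × List Bool × List Bool) × List Bool × Bool => p.1.1) :=
    Poly.fst (Poly.fst Poly.id)
  have hx : Poly (fun p : (List Bool × List Bool × List Bool) × List Bool × Bool => p.1.2.1) :=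
    Poly.fst (Poly.snd (Poly.fst Poly.id))
  refine Poly.foldl (l := fun v : List Bool × List Bool × List Bool => v.2.2)
    (s := fun _ => ([] : List Bool))
    (F := fun v s b => s ++ [R v.1 (M.D (pairBits v.2.1 s)).tail b])
    (Poly.snd (Poly.snd Poly.id)) (NPC.Poly.const _) ?_
    (Polynomial.C 4 * Polynomial.X + Polynomial.C 1) ?_
  · exact Poly.append hs (Poly.cons (hR.comp (Poly.pair ht (Poly.pair
      (Poly.tail ((poly_of_polyTime M.poly).comp (poly_pairBits hx hs))) hb)))
      (NPC.Poly.const []))
  · rintro ⟨t, x, a⟩ k hk
    have h1 := length_ans M R t x (a.take k)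
    change sz (ans M R t x (a.take k)) ≤ _
    have h2 := sz_listBool_le (ans M R t x (a.take k))
    have h3 : (a.take k).length ≤ a.length := by
      rw [List.length_take]
      exact min_le_right _ _
    have h4 : a.length ≤ sz (t, x, a) := by
      rw [sz_pair, sz_pair]
      have := length_lt_sz a
      omega
    simp only [Polynomial.eval_add, Polynomial.eval_mul, Polynomial.eval_C, Polynomial.eval_X]
    omega

/-- the next action -/
def patD (M : Alg) (R : List Bool → List Bool → Bool → Bool) (v : List Bool) : List Bool :=
  if (unpair v).2.length < M.p.eval (unpair (unpair v).1).2.length then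
    M.D (pairBits (unpair (unpair v).1).2
      (ans M R (unpair (unpair v).1).1 (unpair (unpair v).1).2 (unpair v).2))
  else [true]

theorem poly_patD (hR : Poly (fun p : List Bool × List Bool × Bool => R p.1 p.2.1 p.2.2)) :
    Poly (patD M R) := by
  have ha : Poly (fun v : List Bool => (unpair v).2) := Poly.snd poly_unpair
  have hx : Poly (fun v : List Bool => (unpair (unpair v).1).2) :=
    Poly.snd (poly_unpair.comp (Poly.fst poly_unpair))
  have ht : Poly (fun v : List Bool => (unpair (unpair v).1).1) :=
    Poly.fst (poly_unpair.comp (Poly.fst poly_unpair))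
  refine Poly.ite (Poly.decide_lt (Poly.length ha) (UPoly.eval (UPoly.length hx) M.p).toPoly) ?_
    (NPC.Poly.const _)
  exact (poly_of_polyTime M.poly).comp (poly_pairBits hx
    ((poly_ans M hR).comp (Poly.pair ht (Poly.pair hx ha))))

/-- An algorithm with a changed oracle. -/
theorem isFP_pat (hR : Poly (fun p : List Bool × List Bool × Bool => R p.1 p.2.1 p.2.2))
    (A : Oracle) : IsFP A (fun y => (M.out (pat R A (unpair y).1) (unpair y).2).getD []) := by
  let M' : Alg := ⟨patD M R, polyTime_of_poly_list (poly_patD M hR), M.p + 1⟩
  refine ⟨M', fun y => ?_⟩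
  have hD : ∀ a, M'.D (pairBits y a) = if a.length < M.p.eval (unpair y).2.length then
      M.D (pairBits (unpair y).2 (ans M R (unpair y).1 (unpair y).2 a)) else [true] := by
    intro a
    show patD M R (pairBits y a) = _
    unfold patD
    rw [unpair_pairBits]
  have key : ∀ (k : ℕ) (a : List Bool), a.length + k = M.p.eval (unpair y).2.length →
      M'.run A y (k + 1) a = some ((M.run (pat R A (unpair y).1) (unpair y).2 k
        (ans M R (unpair y).1 (unpair y).2 a)).getD []) := by
    intro k
    induction k with
    | zero =>
      intro a ha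
      have e : M'.D (pairBits y a) = [true] := by rw [hD, if_neg (by omega)]
      have h1 : M'.run A y (0 + 1) a = some [] := by
        rw [A2.run_succ M' A y 0 a, e]
        simp
      rw [h1]
      simp [Alg.run]
    | succ k ih =>
      intro a ha
      have e : M'.D (pairBits y a) =
          M.D (pairBits (unpair y).2 (ans M R (unpair y).1 (unpair y).2 a)) := by
        rw [hD, if_pos (by omega)]
      rw [A2.run_succ M' A y (k + 1) a, e, A2.run_succ M _ _ k]
      by_cases hq : (M.D (pairBits (unpair y).2
          (ans M R (unpair y).1 (unpair y).2 a))).head? = some false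
      · rw [if_pos hq, if_pos hq]
        have h1 := ih (a ++ [A (M.D (pairBits (unpair y).2
          (ans M R (unpair y).1 (unpair y).2 a))).tail]) (by
            rw [List.length_append, List.length_singleton]
            omega)
        rw [h1, ans_concat]
        rfl
      · rw [if_neg hq, if_neg hq]
        rfl
  have h1 := key (M.p.eval (unpair y).2.length) [] (by simp)
  unfold Alg.out
  refine Alg.run_mono _ _ _ _ _ _ _ ?_ h1
  have h2 : (unpair y).2.length ≤ y.length := by
    have key2 : ∀ (k : ℕ) (s : List Bool × List Bool × Bool),
        (ustep^[k] s).2.1.length ≤ s.2.1.length := by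
      intro k
      induction k with
      | zero => intro s; exact le_rfl
      | succ k ih =>
        intro s
        rw [Function.iterate_succ_apply]
        refine (ih _).trans ?_
        obtain ⟨a, l, b⟩ := s
        unfold ustep
        cases b with
        | true => simp
        | false =>
          match l with
          | [] => simp
          | true :: [] => simp
          | true :: c :: l' => simp; omega
          | false :: l' => simp
    exact key2 _ _
  show _ ≤ (M.p + 1).eval y.length
  rw [Polynomial.eval_add, Polynomial.eval_one]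
  have := eval_mono M.p h2
  omega

end

/-! ### The hierarchy -/

theorem quant_congr_len {m : ℕ} {V V' : List Bool → List Bool} (ℓ : ℕ)
    (hV : ∀ y : List Bool, y.length ≤ ℓ → (V y = [true] ↔ V' y = [true])) :
    ∀ (k : ℕ) (b : Bool) (y : List Bool), y.length + k * (2 * m + 1) ≤ ℓ →
      (Quant m V k b y ↔ Quant m V' k b y) := by
  intro k
  induction k with
  | zero =>
    intro b y hy
    simp only [Quant]
    exact hV y (by omega)
  | succ k ih =>
    intro b y hy
    have hlen : ∀ w : List Bool, w.length ≤ m → (pairBits w y).length + k * (2 * m + 1) ≤ ℓ := by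
      intro w hw
      rw [length_pairBits]
      have : (k + 1) * (2 * m + 1) = k * (2 * m + 1) + (2 * m + 1) := by ring
      omega
    cases b with
    | true =>
      simp only [Quant]
      exact exists_congr fun w => and_congr_right fun hw => ih false _ (hlen w hw)
    | false =>
      simp only [Quant]
      exact forall_congr' fun w => forall_congr' fun hw => ih true _ (hlen w hw)

/-- The language of the questions with a table. -/
def QL (M : Alg) (R : List Bool → List Bool → Bool → Bool) (p : Polynomial ℕ) (k : ℕ)
    (A : Oracle) : Set (List Bool) :=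
  {y | Quant (p.eval (unpair y).2.length) (fun z => (M.out (pat R A (unpair y).1) z).getD []) k
    true (unpair y).2}

theorem ql_isPH (M : Alg) {R : List Bool → List Bool → Bool → Bool}
    (hR : Poly (fun p : List Bool × List Bool × Bool => R p.1 p.2.1 p.2.2)) (p : Polynomial ℕ)
    (k : ℕ) (A : Oracle) : IsPH A (QL M R p k A) := by
  have h2 : Poly (fun z : List Bool => (unpair z).2) := Poly.snd poly_unpair
  obtain ⟨q, hq⟩ := length_le_of_poly h2
  have hF := isFP_pat M hR A
  refine ⟨fun z => (M.out (pat R A (unpair (pairBits (unpair (strip k z)).1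
    (truncG p (fun z => (unpair z).2) k z).2)).1) (unpair (pairBits (unpair (strip k z)).1
    (truncG p (fun z => (unpair z).2) k z).2)).2).getD [], p.comp q, k, hF.precomp
    (poly_pairBits (Poly.fst (poly_unpair.comp (poly_strip k)))
      (Poly.snd (poly_truncG p h2 k))), fun y => ?_⟩
  have h3 := quant_g (p := p) (g := fun z : List Bool => (unpair z).2)
    (V := fun z => (M.out (pat R A (unpair y).1) z).getD []) (m' := (p.comp q).eval y.length)
    (k := k) (b := true) (y := y) (by
      rw [Polynomial.eval_comp]
      exact eval_mono _ (hq y))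
  show Quant _ _ _ _ _ ↔ _
  rw [h3]
  apply quant_congr_strip _ _ _ y k _ k 0 true y (by omega) rfl
  intro z hz
  simp only [unpair_pairBits, hz]

/-- `R` and the strings `τ n` allow to compute `B` from `A` on strings of length at most `n`. -/
def Tabl (R : List Bool → List Bool → Bool → Bool) (A B : Oracle) (τ : ℕ → List Bool) : Prop :=
  ∀ n, ∀ q : List Bool, q.length ≤ n → pat R A (τ n) q = B q

theorem quant_tabl {M : Alg} {R : List Bool → List Bool → Bool → Bool} {A B : Oracle}
    {τ : ℕ → List Bool} (hτ : Tabl R A B τ) {V : List Bool → List Bool}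
    (hV : ∀ x, M.out B x = some (V x)) {qb : Polynomial ℕ}
    (hqb : ∀ (A : Oracle) (x : List Bool), ∃ Q : Finset (List Bool), Q.card ≤ M.p.eval x.length ∧
      (∀ q ∈ Q, q.length ≤ qb.eval x.length) ∧
      ∀ A' : Oracle, (∀ q ∈ Q, A' q = A q) → M.out A' x = M.out A x)
    (m k ℓ N : ℕ) (hN : qb.eval ℓ ≤ N) (y : List Bool) (hy : y.length + k * (2 * m + 1) ≤ ℓ) :
    Quant m V k true y ↔ Quant m (fun z => (M.out (pat R A (τ N)) z).getD []) k true y := by
  apply quant_congr_len ℓ _ k true y hy
  intro z hz
  obtain ⟨Q, _, hQ, hQ'⟩ := hqb B z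
  have h1 : M.out (pat R A (τ N)) z = M.out B z := by
    apply hQ'
    intro q hq
    exact hτ N q ((hQ q hq).trans ((eval_mono _ hz).trans hN))
  show V z = [true] ↔ (M.out (pat R A (τ N)) z).getD [] = [true]
  rw [h1, hV]
  rfl

/-- The hierarchy relative to `B` is contained in the hierarchy relative to `A` with advice. -/
theorem isPHpoly_of_tabl {R : List Bool → List Bool → Bool → Bool}
    (hR : Poly (fun p : List Bool × List Bool × Bool => R p.1 p.2.1 p.2.2)) {A B : Oracle}
    {τ : ℕ → List Bool} (hτ : Tabl R A B τ) {t : Polynomial ℕ}
    (ht : ∀ n, (τ n).length ≤ t.eval n) {L : Set (List Bool)} (hL : IsPHpoly B L) :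
    IsPHpoly A L := by
  obtain ⟨L', h, p', ⟨V, p, k, ⟨M, hM⟩, hL'⟩, hh, hx⟩ := hL
  obtain ⟨qb, hqb⟩ := Alg.out_local M
  -- the lengths
  let e : Polynomial ℕ := Polynomial.C 2 * Polynomial.X + Polynomial.C 1 + p'
  let ℓ : Polynomial ℕ := e + Polynomial.C k * (Polynomial.C 2 * p.comp e + Polynomial.C 1)
  have hg : Poly (fun z : List Bool => pairBits (unpair (unpair z).2).1
      (pairBits (unpair z).1 (unpair (unpair z).2).2)) :=
    poly_pairBits (Poly.fst (poly_unpair.comp (Poly.snd poly_unpair)))
      (poly_pairBits (Poly.fst poly_unpair) (Poly.snd (poly_unpair.comp (Poly.snd poly_unpair))))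
  refine ⟨_, fun n => pairBits (τ (qb.eval (ℓ.eval n))) (h n),
    Polynomial.C 2 * t.comp (qb.comp ℓ) + Polynomial.C 1 + p',
    phPrecomp (ql_isPH M hR p k A) hg, fun n => ?_, fun x => ?_⟩
  · rw [length_pairBits]
    have h1 := ht (qb.eval (ℓ.eval n))
    have h2 := hh n
    simp only [Polynomial.eval_add, Polynomial.eval_mul, Polynomial.eval_C,
      Polynomial.eval_comp]
    omega
  · rw [hx, hL']
    have h1 : (pairBits x (h x.length)).length ≤ e.eval x.length := by
      rw [length_pairBits]
      have := hh x.length
      simp only [e, Polynomial.eval_add, Polynomial.eval_mul, Polynomial.eval_C,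
        Polynomial.eval_X]
      omega
    have h2 := eval_mono p h1
    have h3 := quant_tabl hτ hM hqb (p.eval (pairBits x (h x.length)).length) k
      (ℓ.eval x.length) (qb.eval (ℓ.eval x.length)) le_rfl (pairBits x (h x.length)) (by
        have h4 : k * (2 * p.eval (pairBits x (h x.length)).length + 1) ≤
            k * (2 * p.eval (e.eval x.length) + 1) := Nat.mul_le_mul_left _ (by omega)
        simp only [ℓ, Polynomial.eval_add, Polynomial.eval_mul, Polynomial.eval_C,
          Polynomial.eval_comp] at h1 ⊢
        omega)
    rw [h3]
    simp only [QL, Set.mem_ofPred_eq, unpair_pairBits]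

end Pool.Agent.Helper67.PHP
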