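import Pool.Agent.H529R3.Lev.Precomp
import Pool.Agent.H591R3.PHG.Sig
import Pool.Agent.H620R2.Gauge2.Trans
import Pool.Agent.H620R2.GaugeR.Seq

/-! Closure properties of the polynomial hierarchy relative to an oracle. -/

set_option autoImplicit false

namespace Pool.Agent.Helper67.PHP

open Pool.Agent.NPC Pool.Agent.H622R2 Pool.Agent.H620R2.Gauge H529R3.Lev
open Pool.Agent.H591R3.PHG (strip poly_strip quant_succ)

/-- The languages defined by `k` alternating quantifiers, the first one given by the bit. -/
def Lev (A : Oracle) (k : ℕ) (b : Bool) (L : Set (List Bool)) : Prop :=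
  ∃ (V : List Bool → List Bool) (p : Polynomial ℕ), IsFP A V ∧
    ∀ x, x ∈ L ↔ Quant (p.eval x.length) V k b x

theorem isPH_iff {A : Oracle} {L : Set (List Bool)} : IsPH A L ↔ ∃ k, Lev A k true L := by
  constructor
  · rintro ⟨V, p, k, h1, h2⟩
    exact ⟨k, V, p, h1, h2⟩
  · rintro ⟨k, V, p, h1, h2⟩
    exact ⟨V, p, k, h1, h2⟩

/-- exchange acceptance and rejection -/
def ng (v : List Bool) : List Bool := if v = [true] then [] else [true]

theorem poly_ng : Poly ng :=
  Poly.ite (Poly.decide_eq Poly.id (NPC.Poly.const _)) (NPC.Poly.const _) (NPC.Poly.const _)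

theorem ng_iff (v : List Bool) : ng v = [true] ↔ v ≠ [true] := by
  unfold ng
  split_ifs with h <;> simp [h]

theorem quant_ng (m : ℕ) (V : List Bool → List Bool) : ∀ (k : ℕ) (b : Bool) (y : List Bool),
    Quant m (fun z => ng (V z)) k (!b) y ↔ ¬ Quant m V k b y := by
  intro k
  induction k with
  | zero =>
    intro b y
    cases b <;> simp [Quant, ng_iff]
  | succ k ih =>
    intro b y
    cases b with
    | true =>
      simp only [Bool.not_true, Quant, not_exists, not_and]
      exact forall_congr' fun w => forall_congr' fun _ => ih false _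
    | false =>
      simp only [Bool.not_false, Quant, not_forall]
      constructor
      · rintro ⟨w, h1, h2⟩
        exact ⟨w, h1, (ih true _).1 h2⟩
      · rintro ⟨w, h1, h2⟩
        exact ⟨w, h1, (ih true _).2 h2⟩

theorem Lev.compl {A : Oracle} {k : ℕ} {b : Bool} {L : Set (List Bool)} (h : Lev A k b L) :
    Lev A k (!b) Lᶜ := by
  obtain ⟨V, p, hV, hL⟩ := h
  refine ⟨fun z => ng (V z), p, (IsFP.of_poly poly_ng).comp hV, fun x => ?_⟩
  rw [quant_ng, ← hL]
  rfl

theorem quant_g {p : Polynomial ℕ} {g V : List Bool → List Bool} {m' : ℕ} {k : ℕ} {b : Bool}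
    {y : List Bool} (hm : p.eval (g y).length ≤ m') :
    Quant (p.eval (g y).length) V k b (g y) ↔
      Quant m' (fun z => V (truncG p g k z).2) k b y := by
  have h := quant_truncG p g V hm k 0 b y (g y) rfl
  rwa [zero_add] at h

/-- the bound for the length of the values of a polynomial-time function -/
theorem length_le_of_poly {g : List Bool → List Bool} (hg : Poly g) :
    ∃ q : Polynomial ℕ, ∀ y, (g y).length ≤ q.eval y.length := by
  obtain ⟨q, hq⟩ := hg.sz_le
  refine ⟨q.comp (Polynomial.C 4 * Polynomial.X + Polynomial.C 1), fun y => ?_⟩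
  have h3 := length_lt_sz (g y)
  have h4 := hq y
  rw [Polynomial.eval_comp]
  refine h3.le.trans (h4.trans (eval_mono _ ?_))
  have h5 := sz_listBool_le y
  simpa using h5

theorem le_of_upoly {β : List Bool → ℕ} (hβ : UPoly β) :
    ∃ q : Polynomial ℕ, ∀ y, β y ≤ q.eval y.length := by
  obtain ⟨q, hq⟩ := Poly.sz_le hβ
  refine ⟨q.comp (Polynomial.C 4 * Polynomial.X + Polynomial.C 1), fun y => ?_⟩
  refine A2.sz_eval_le ?_
  have h1 := length_lt_sz (List.replicate (β y) ())
  rw [List.length_replicate] at h1
  exact h1.le.trans (hq y)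

theorem Lev.precomp {A : Oracle} {k : ℕ} {b : Bool} {L : Set (List Bool)} (h : Lev A k b L)
    {g : List Bool → List Bool} (hg : Poly g) : Lev A k b {y | g y ∈ L} := by
  obtain ⟨V, p, hV, hL⟩ := h
  obtain ⟨q, hq⟩ := length_le_of_poly hg
  refine ⟨fun z => V (truncG p g k z).2, p.comp q,
    hV.precomp (Poly.snd (poly_truncG p hg k)), fun y => ?_⟩
  have hm : p.eval (g y).length ≤ (p.comp q).eval y.length := by
    rw [Polynomial.eval_comp]
    exact eval_mono _ (hq y)
  rw [← quant_g hm]
  exact hL (g y)

theorem Lev.flip {A : Oracle} {k : ℕ} {b : Bool} {L : Set (List Bool)} (h : Lev A k b L) :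
    Lev A (k + 1) (!b) L := by
  obtain ⟨V, p, hV, hL⟩ := h
  have h2 : Poly (fun z : List Bool => (unpair z).2) := Poly.snd poly_unpair
  refine ⟨fun z => V (truncG p (fun z => (unpair z).2) k z).2, p,
    hV.precomp (Poly.snd (poly_truncG p h2 k)), fun x => ?_⟩
  have key : ∀ w : List Bool, (Quant (p.eval x.length)
      (fun z => V (truncG p (fun z => (unpair z).2) k z).2) k b (pairBits w x) ↔ x ∈ L) := by
    intro w
    have h3 := quant_g (p := p) (g := fun z : List Bool => (unpair z).2) (V := V)
      (m' := p.eval x.length) (k := k) (b := b) (y := pairBits w x) (by rw [unpair_pairBits])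
    rw [unpair_pairBits] at h3
    rw [← h3, hL]
  cases b with
  | true =>
    simp only [Bool.not_true, Quant, key]
    exact ⟨fun h _ _ => h, fun h => h [] (by simp)⟩
  | false =>
    simp only [Bool.not_false, Quant, key]
    exact ⟨fun h => ⟨[], by simp, h⟩, fun ⟨_, _, h⟩ => h⟩

theorem Lev.succ {A : Oracle} {k : ℕ} {b : Bool} {L : Set (List Bool)} (h : Lev A k b L) :
    Lev A (k + 1) b L := by
  obtain ⟨V, p, hV, hL⟩ := h
  refine ⟨fun z => V (unpair z).2, p, hV.precomp (Poly.snd poly_unpair), fun x => ?_⟩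
  rw [quant_succ]
  exact hL x

theorem Lev.mono {A : Oracle} {k k' : ℕ} {b : Bool} {L : Set (List Bool)} (h : Lev A k b L)
    (hk : k ≤ k') : Lev A k' b L := by
  induction k', hk using Nat.le_induction with
  | base => exact h
  | succ n _ ih => exact ih.succ

theorem Lev.of_isPH {A : Oracle} {L : Set (List Bool)} (h : IsPH A L) :
    ∃ k, ∀ b, ∀ k' ≥ k, Lev A k' b L := by
  obtain ⟨k, hk⟩ := isPH_iff.1 h
  refine ⟨k + 1, fun b k' hk' => ?_⟩
  cases b with
  | true => exact hk.mono (by omega)
  | false => exact (hk.flip).mono hk'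

theorem Lev.isPH {A : Oracle} {k : ℕ} {b : Bool} {L : Set (List Bool)} (h : Lev A k b L) :
    IsPH A L := by
  cases b with
  | true => exact isPH_iff.2 ⟨k, h⟩
  | false => exact isPH_iff.2 ⟨k + 1, h.flip⟩

theorem phCompl {A : Oracle} {L : Set (List Bool)} (h : IsPH A L) : IsPH A Lᶜ := by
  obtain ⟨k, hk⟩ := Lev.of_isPH h
  exact (hk true k le_rfl).compl.isPH

theorem phPrecomp {A : Oracle} {L : Set (List Bool)} (h : IsPH A L) {g : List Bool → List Bool}
    (hg : Poly g) : IsPH A {y | g y ∈ L} := by
  obtain ⟨k, hk⟩ := isPH_iff.1 h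
  exact (hk.precomp hg).isPH

/-- the bound may be enlarged -/
theorem Lev.large {A : Oracle} {k : ℕ} {b : Bool} {L : Set (List Bool)} (h : Lev A k b L) :
    ∃ p : Polynomial ℕ, ∀ p' : Polynomial ℕ, (∀ n, p.eval n ≤ p'.eval n) →
      ∃ V : List Bool → List Bool, IsFP A V ∧ ∀ x, x ∈ L ↔ Quant (p'.eval x.length) V k b x := by
  obtain ⟨V, p, hV, hL⟩ := h
  refine ⟨p, fun p' hp' => ⟨fun z => V (truncG p (fun z => z) k z).2,
    hV.precomp (Poly.snd (poly_truncG p Poly.id k)), fun x => ?_⟩⟩
  have h3 := quant_g (p := p) (g := fun z : List Bool => z) (V := V)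
      (m' := p'.eval x.length) (k := k) (b := b) (y := x) (hp' _)
  rw [← h3]
  exact hL x

theorem quant_congr_strip (m : ℕ) (V V' : List Bool → List Bool) (x : List Bool) (K : ℕ)
    (h : ∀ z, strip K z = x → V z = V' z) : ∀ (k j : ℕ) (b : Bool) (y : List Bool), j + k = K →
    strip j y = x → (Quant m V k b y ↔ Quant m V' k b y) := by
  intro k
  induction k with
  | zero =>
    intro j b y hj hy
    have hjK : j = K := by omega
    subst hjK
    cases b <;> simp only [Quant, h y hy]
  | succ k ih =>
    intro j b y hj hy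
    have key : ∀ (w : List Bool) (b : Bool), (Quant m V k b (pairBits w y) ↔
        Quant m V' k b (pairBits w y)) := fun w b =>
      ih (j + 1) b (pairBits w y) (by omega) (by simp only [strip, unpair_pairBits]; exact hy)
    cases b <;> simp only [Quant, key]

theorem IsFP.ite {A : Oracle} {F G : List Bool → List Bool} {C : List Bool → Bool} (hC : Poly C)
    (hF : IsFP A F) (hG : IsFP A G) : IsFP A (fun x => if C x = true then F x else G x) :=
  IsFP.seq (φ := fun p => p.1) (ψ := fun p => if C p.1 = true then p.2.1 else p.2.2) hF hG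
    (Poly.fst Poly.id)
    (Poly.ite (Poly.decide_eq (hC.comp (Poly.fst Poly.id)) (NPC.Poly.const _))
      (Poly.fst (Poly.snd Poly.id)) (Poly.snd (Poly.snd Poly.id)))

theorem Lev.cases {A : Oracle} {k : ℕ} {b : Bool} {L L' : Set (List Bool)} (h : Lev A k b L)
    (h' : Lev A k b L') {C : List Bool → Bool} (hC : Poly C) :
    Lev A k b {x | if C x = true then x ∈ L else x ∈ L'} := by
  obtain ⟨p, hp⟩ := h.large
  obtain ⟨p', hp'⟩ := h'.large
  obtain ⟨V, hV, hL⟩ := hp (p + p') (fun n => by simp)
  obtain ⟨V', hV', hL'⟩ := hp' (p + p') (fun n => by simp)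
  refine ⟨fun z => if C (strip k z) = true then V z else V' z, p + p',
    IsFP.ite (hC.comp (poly_strip k)) hV hV', fun x => ?_⟩
  by_cases hx : C x = true
  · simp only [Set.mem_ofPred_eq, hx, if_true]
    rw [hL x]
    apply quant_congr_strip _ _ _ x k _ k 0 b x (by omega) rfl
    intro z hz
    simp only [hz, hx, if_true]
  · simp only [Set.mem_ofPred_eq, hx]
    rw [if_neg (by simp), hL' x]
    apply quant_congr_strip _ _ _ x k _ k 0 b x (by omega) rfl
    intro z hz
    simp only [hz, hx]
    rw [if_neg (by simp)]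

/-- A polynomially bounded existential quantifier in front. -/
theorem Lev.ex {A : Oracle} {k : ℕ} {L : Set (List Bool)} (h : Lev A k false L)
    {β : List Bool → ℕ} (hβ : UPoly β) :
    Lev A (k + 1) true {y | ∃ w : List Bool, w.length ≤ β y ∧ pairBits w y ∈ L} := by
  obtain ⟨V, p, hV, hL⟩ := h
  obtain ⟨q, hq⟩ := le_of_upoly hβ
  let g : List Bool → List Bool := fun z =>
    pairBits (((unpair z).1.zip (List.replicate (β (unpair z).2) ())).map (fun u => u.1))
      (unpair z).2
  have h1 : Poly (fun z : List Bool => (unpair z).1) := Poly.fst poly_unpair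
  have h2 : Poly (fun z : List Bool => (unpair z).2) := Poly.snd poly_unpair
  have hg : Poly g := by
    refine poly_pairBits ?_ h2
    have h4 : Poly (fun z : List Bool => (unpair z).1.zip (List.replicate (β (unpair z).2) ())) :=
      Poly.zip h1 (hβ.comp h2)
    exact NPC.Poly.map (F := fun _ u => u.1) h4 (Poly.fst (Poly.snd Poly.id))
  have hg' : ∀ w y, g (pairBits w y) = pairBits (w.take (β y)) y := by
    intro w y
    simp only [g, unpair_pairBits, map_fst_zip_replicate']
  -- the bound
  let m : Polynomial ℕ := q + p.comp (Polynomial.C 2 * q + Polynomial.C 1 + Polynomial.X)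
  refine ⟨fun z => V (truncG p g k z).2, m, hV.precomp (Poly.snd (poly_truncG p hg k)),
    fun y => ?_⟩
  have hm1 : β y ≤ m.eval y.length := by
    have := hq y
    simp only [m, Polynomial.eval_add]
    omega
  have key : ∀ w : List Bool, (Quant (m.eval y.length) (fun z => V (truncG p g k z).2) k false
      (pairBits w y) ↔ pairBits (w.take (β y)) y ∈ L) := by
    intro w
    have h3 := quant_g (p := p) (g := g) (V := V) (m' := m.eval y.length) (k := k) (b := false)
      (y := pairBits w y) (by
        rw [hg']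
        simp only [m, Polynomial.eval_add]
        refine le_trans ?_ (Nat.le_add_left _ _)
        rw [Polynomial.eval_comp]
        apply eval_mono
        rw [length_pairBits, List.length_take]
        have := hq y
        simp only [Polynomial.eval_add, Polynomial.eval_mul, Polynomial.eval_C, Polynomial.eval_X]
        omega)
    rw [hg'] at h3
    rw [← h3, hL]
  simp only [Set.mem_ofPred_eq, Quant, key]
  constructor
  · rintro ⟨w, hw, hw'⟩
    refine ⟨w, hw.trans hm1, ?_⟩
    rwa [List.take_of_length_le hw]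
  · rintro ⟨w, hw, hw'⟩
    exact ⟨w.take (β y), by simp, hw'⟩

theorem phEx {A : Oracle} {L : Set (List Bool)} (h : IsPH A L) {β : List Bool → ℕ}
    (hβ : UPoly β) : IsPH A {y | ∃ w : List Bool, w.length ≤ β y ∧ pairBits w y ∈ L} := by
  obtain ⟨k, hk⟩ := Lev.of_isPH h
  exact ((hk false k le_rfl).ex hβ).isPH

theorem phAll {A : Oracle} {L : Set (List Bool)} (h : IsPH A L) {β : List Bool → ℕ}
    (hβ : UPoly β) : IsPH A {y | ∀ w : List Bool, w.length ≤ β y → pairBits w y ∈ L} := by
  have h1 := phCompl (phEx (phCompl h) hβ)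
  convert h1 using 1
  ext y
  simp

theorem phCases {A : Oracle} {L L' : Set (List Bool)} (h : IsPH A L) (h' : IsPH A L')
    {C : List Bool → Bool} (hC : Poly C) : IsPH A {x | if C x = true then x ∈ L else x ∈ L'} := by
  obtain ⟨k, hk⟩ := Lev.of_isPH h
  obtain ⟨k', hk'⟩ := Lev.of_isPH h'
  exact ((hk true (max k k') (le_max_left _ _)).cases (hk' true (max k k') (le_max_right _ _))
    hC).isPH

theorem phInter {A : Oracle} {L L' : Set (List Bool)} (h : IsPH A L) (h' : IsPH A L') :
    IsPH A (L ∩ L') := by
  have h1 : Poly (fun z : List Bool => (unpair z).1) := Poly.fst poly_unpair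
  have h2 : Poly (fun z : List Bool => (unpair z).2) := Poly.snd poly_unpair
  have hC : Poly (fun z : List Bool => decide ((unpair z).1 = [])) :=
    Poly.decide_eq h1 (NPC.Poly.const _)
  have h3 := phAll (phCases (phPrecomp h h2) (phPrecomp h' h2) hC) (β := fun _ => 1)
    (UPoly.const 1)
  convert h3 using 1
  ext y
  simp only [Set.mem_inter_iff, Set.mem_ofPred_eq, unpair_pairBits, decide_eq_true_eq]
  constructor
  · rintro ⟨h4, h5⟩ w _
    split_ifs
    · exact h4
    · exact h5
  · intro h4
    exact ⟨by simpa using h4 [] (by simp), by simpa using h4 [true] (by simp)⟩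

theorem phUnion {A : Oracle} {L L' : Set (List Bool)} (h : IsPH A L) (h' : IsPH A L') :
    IsPH A (L ∪ L') := by
  have h1 := phCompl (phInter (phCompl h) (phCompl h'))
  rwa [Set.compl_inter, compl_compl, compl_compl] at h1

/-- polynomial-time decidable properties -/
theorem phOfPoly {A : Oracle} {C : List Bool → Bool} (hC : Poly C) :
    IsPH A {x | C x = true} := by
  apply IsP.isPH
  refine ⟨fun x => if C x = true then [true] else [], IsFP.of_poly ?_, fun x => ?_⟩
  · exact Poly.ite (Poly.decide_eq hC (NPC.Poly.const _)) (NPC.Poly.const _) (NPC.Poly.const _)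
  · by_cases h : C x = true <;> simp [h]

end Pool.Agent.Helper67.PHP
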