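import Pool.Agent.H620R2.Gauge.Comb

/-! The probability that boundedly many alternations compute the parities, with fixed summands. -/

set_option autoImplicit false

namespace Pool.Agent.Helper67.PHP

open Pool.Agent.NPC Finset H568R2 Pool.Agent.H676 Pool.Agent.H620R2.Gauge

theorem DTr.xor_const {I : Type*} [Fintype I] [DecidableEq I] {t : ℕ} {f : (I → Bool) → Bool}
    (h : DTr t f) (c : Bool) : DTr t (fun a => (f a ^^ c)) := h.comp (fun b => (b ^^ c))

theorem xor_eq_iff (a b c : Bool) : (a ^^ c) = b ↔ a = (b ^^ c) := by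
  cases a <;> cases b <;> cases c <;> simp

open Classical in
theorem combC {I : Type*} [Fintype I] [DecidableEq I] {t : ℕ} (ht : 1 ≤ t) {q : ℝ} (h0 : 0 ≤ q)
    (h1 : q ≤ 1 / 3) (m : ℕ) (F : List Bool → (I → Bool) → Bool) (k ℓ : ℕ)
    (hF : ∀ y : List Bool, y.length ≤ ℓ + k * (2 * m + 1) → DTr t (F y))
    {ι η : Type*} (X : Finset ι) (B : ι → Finset I) (c : ι → η → Bool)
    (hB : ∀ x ∈ X, ∀ x' ∈ X, x ≠ x' → Disjoint (B x) (B x'))
    (H : Finset η) (y : ι → η → List Bool) (hy : ∀ x ∈ X, ∀ h ∈ H, (y x h).length ≤ ℓ)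
    (r s : ℕ) (hr : X.card * t ≤ r) (hs : ∀ x ∈ X, (r + 1) * s ≤ (B x).card) :
    Ex unif (fun a : I → Bool =>
      if ∃ h ∈ H, ∀ x ∈ X, QF m F k true (y x h) a = (par (B x) a ^^ c x h) then (1 : ℝ) else 0) ≤
      k * 2 ^ (ℓ + k * (2 * m + 1) + 2) * (12 * t * q) ^ (t + 1) +
        X.card * ((r + 1) * (1 - q ^ k) ^ s) + H.card * (1 / 2) ^ X.card := by
  have hq0 : 0 ≤ q ^ k := pow_nonneg h0 k
  have hq1 : q ^ k ≤ 1 := pow_le_one₀ h0 (by linarith)
  rw [← Ex_ov (q := q ^ k)]
  have hpt : ∀ ρ : Restr I, Ex unif (fun a : I → Bool =>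
      if ∃ h ∈ H, ∀ x ∈ X, QF m F k true (y x h) (ov ρ a) = (par (B x) (ov ρ a) ^^ c x h)
        then (1 : ℝ) else 0) ≤
      ((if ¬ ∀ y : List Bool, y.length ≤ ℓ → ∀ b, DTr t (rs (QF m F k b y) ρ) then (1 : ℝ) else 0) +
        ∑ x ∈ X, (if ((B x).filter (fun i => ρ i = none)).card ≤ r then (1 : ℝ) else 0)) +
        H.card * (1 / 2) ^ X.card := by
    intro ρ
    have hle1 : Ex unif (fun a : I → Bool =>
      if ∃ h ∈ H, ∀ x ∈ X, QF m F k true (y x h) (ov ρ a) = (par (B x) (ov ρ a) ^^ c x h)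
        then (1 : ℝ) else 0) ≤ 1 := by
      calc _ ≤ Ex unif (fun _ : I → Bool => (1 : ℝ)) := by
            apply Ex_mono unif_nonneg
            intro a
            split_ifs <;> norm_num
        _ = 1 := Ex_const unif_sum 1
    have hs0 : 0 ≤ ∑ x ∈ X, (if ((B x).filter (fun i => ρ i = none)).card ≤ r
        then (1 : ℝ) else 0) := Finset.sum_nonneg fun x _ => by split_ifs <;> norm_num
    have hh0 : 0 ≤ (H.card : ℝ) * (1 / 2) ^ X.card := by positivity
    by_cases hG : ∀ y : List Bool, y.length ≤ ℓ → ∀ b, DTr t (rs (QF m F k b y) ρ)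
    · by_cases hst : ∃ x ∈ X, ((B x).filter (fun i => ρ i = none)).card ≤ r
      · obtain ⟨x, hx, hxr⟩ := hst
        have h2 : (1 : ℝ) ≤ ∑ x ∈ X, (if ((B x).filter (fun i => ρ i = none)).card ≤ r
            then (1 : ℝ) else 0) := by
          refine le_trans ?_ (Finset.single_le_sum (f := fun x =>
            if ((B x).filter (fun i => ρ i = none)).card ≤ r then (1 : ℝ) else 0)
            (fun x _ => by positivity) hx)
          rw [if_pos hxr]
        have h3 : (0:ℝ) ≤ (if ¬ ∀ y : List Bool, y.length ≤ ℓ → ∀ b, DTr t (rs (QF m F k b y) ρ)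
          then (1 : ℝ) else 0) := by split_ifs <;> norm_num
        linarith
      · push Not at hst
        have h3 : (0:ℝ) ≤ (if ¬ ∀ y : List Bool, y.length ≤ ℓ → ∀ b, DTr t (rs (QF m F k b y) ρ)
          then (1 : ℝ) else 0) := by split_ifs <;> norm_num
        have h4 : Ex unif (fun a : I → Bool =>
            if ∃ h ∈ H, ∀ x ∈ X, QF m F k true (y x h) (ov ρ a) = (par (B x) (ov ρ a) ^^ c x h)
              then (1 : ℝ) else 0) ≤ Ex unif (fun a : I → Bool => ∑ h ∈ H,
            if ∀ x ∈ X, QF m F k true (y x h) (ov ρ a) = (par (B x) (ov ρ a) ^^ c x h)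
              then (1 : ℝ) else 0) := by
          apply Ex_mono unif_nonneg
          intro a
          split_ifs with h
          · obtain ⟨h, hh, hx⟩ := h
            refine le_trans ?_ (Finset.single_le_sum (f := fun h =>
              if ∀ x ∈ X, QF m F k true (y x h) (ov ρ a) = (par (B x) (ov ρ a) ^^ c x h)
              then (1 : ℝ) else 0) (fun x _ => by positivity) hh)
            rw [if_pos hx]
          · exact Finset.sum_nonneg fun x _ => by split_ifs <;> norm_num
        have h5 : ∀ h ∈ H, Ex unif (fun a : I → Bool =>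
            if ∀ x ∈ X, QF m F k true (y x h) (ov ρ a) = (par (B x) (ov ρ a) ^^ c x h)
              then (1 : ℝ) else 0) ≤ (1 / 2) ^ X.card := by
          intro h hh
          have h6 := xor_bound ρ X B hB (fun x a => (QF m F k true (y x h) a ^^ c x h)) t ?_ ?_
          · simp only [xor_eq_iff] at h6
            exact h6
          · intro x hx
            exact DTr.xor_const (hG _ (hy x hx h hh) true) (c x h)
          · intro x hx
            exact lt_of_le_of_lt hr (hst x hx)
        rw [Ex_sum] at h4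
        have h6 := Finset.sum_le_sum h5
        rw [Finset.sum_const, nsmul_eq_mul] at h6
        linarith
    · rw [if_pos hG]
      linarith
  refine (Ex_mono (wq_nonneg hq0 hq1) hpt).trans ?_
  rw [Ex_add, Ex_add, Ex_sum, Ex_const (wq_sum (q ^ k))]
  have h7 := switch_alt ht h0 h1 m F k ℓ hF
  have h8 : ∀ x ∈ X, Ex (wq (q ^ k)) (fun ρ : Restr I =>
      if ((B x).filter (fun i => ρ i = none)).card ≤ r then (1 : ℝ) else 0) ≤
      (r + 1) * (1 - q ^ k) ^ s := fun x hx => few_stars hq0 hq1 (B x) r s (hs x hx)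
  have h9 := Finset.sum_le_sum h8
  rw [Finset.sum_const, nsmul_eq_mul] at h9
  linarith

end Pool.Agent.Helper67.PHP
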