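import Pool.Agent.Helper67.PHP.Typed

/-! The configurations of a computation in polynomial space, with a clock and a changed oracle. -/

set_option autoImplicit false

namespace Pool.Agent.Helper67.PHP

open Pool.Agent.NPC Pool.Agent.H622R2 Pool.Agent.H620R2.Gauge

/-- the oracle changed according to a table -/
def pat (R : List Bool → List Bool → Bool → Bool) (A : Oracle) (τ : List Bool) : Oracle :=
  fun q => R τ q (A q)

/-- one step on the memory, truncated to the length `m` -/
def cst (M : SAlg) (x : List Bool) (m : ℕ) (s : List Bool) (b : Bool) : List Bool :=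
  if (M.act (pairBits x s)).head? = some false then (M.next (pairBits x (b :: s))).take m else s

/-- the memory after `t` steps -/
def conf (M : SAlg) (B : Oracle) (m : ℕ) (x : List Bool) : ℕ → List Bool
  | 0 => []
  | t + 1 => cst M x m (conf M B m x t) (B (M.act (pairBits x (conf M B m x t))).tail)

/-- fill up with zeros -/
def pad (m : ℕ) (s : List Bool) : List Bool := s ++ true :: List.replicate (m - s.length) false

theorem length_pad {m : ℕ} {s : List Bool} (h : s.length ≤ m) : (pad m s).length = m + 1 := by
  unfold pad
  simp
  omega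

theorem pad_inj {m : ℕ} {s s' : List Bool} (h : s.length ≤ m) (h' : s'.length ≤ m)
    (e : pad m s = pad m s') : s = s' := by
  have key : ∀ s s' : List Bool, s'.length ≤ m → pad m s = pad m s' →
      ¬ s.length < s'.length := by
    intro s s' h' e hlt
    have h1 : (pad m s)[s'.length]? = some false := by
      unfold pad
      rw [List.getElem?_append_right (by omega)]
      obtain ⟨d, hd⟩ : ∃ d, s'.length - s.length = d + 1 := ⟨s'.length - s.length - 1, by omega⟩
      rw [hd, List.getElem?_cons_succ, List.getElem?_replicate, if_pos (by omega)]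
    have h2 : (pad m s')[s'.length]? = some true := by
      unfold pad
      rw [List.getElem?_append_right le_rfl]
      simp
    rw [e, h2] at h1
    simp at h1
  have h1 := key s s' h' e
  have h2 := key s' s h e.symm
  have h3 : s.length = s'.length := by omega
  unfold pad at e
  exact (List.append_inj e h3).1

theorem length_conf (M : SAlg) (B : Oracle) (m : ℕ) (x : List Bool) : ∀ t,
    (conf M B m x t).length ≤ m := by
  intro t
  induction t with
  | zero => simp [conf]
  | succ t ih =>
    rw [conf, cst]
    split_ifs
    · rw [List.length_take]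
      exact min_le_left _ _
    · exact ih

/-! ### Polynomial space -/

section

variable (M : SAlg) (R : List Bool → List Bool → Bool → Bool) (p : Polynomial ℕ)

/-- the table -/
def yT (y : List Bool) : List Bool := (unpair (unpair y).1).1
/-- the input -/
def yX (y : List Bool) : List Bool := (unpair (unpair y).1).2
/-- the clock -/
def yC (y : List Bool) : List Bool := (unpair (unpair y).2).1
/-- the configuration -/
def yS (y : List Bool) : List Bool := (unpair (unpair y).2).2

theorem poly_yT : Poly yT := Poly.fst (poly_unpair.comp (Poly.fst poly_unpair))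
theorem poly_yX : Poly yX := Poly.snd (poly_unpair.comp (Poly.fst poly_unpair))
theorem poly_yC : Poly yC := Poly.fst (poly_unpair.comp (Poly.snd poly_unpair))
theorem poly_yS : Poly yS := Poly.snd (poly_unpair.comp (Poly.snd poly_unpair))

/-- The questions about the configurations. -/
def ConfL (A : Oracle) : Set (List Bool) :=
  {y | pad (p.eval (yX y).length) (conf M (pat R A (yT y)) (p.eval (yX y).length) (yX y)
    (valB (yC y))) = yS y}

theorem mem_confL (A : Oracle) (τ x c s : List Bool) :
    pairBits (pairBits τ x) (pairBits c s) ∈ ConfL M R p A ↔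
      pad (p.eval x.length) (conf M (pat R A τ) (p.eval x.length) x (valB c)) = s := by
  unfold ConfL
  simp only [Set.mem_ofPred_eq, yT, yX, yC, yS, unpair_pairBits]

theorem valB_lt : ∀ w : List Bool, valB w < 2 ^ w.length
  | [] => by simp [valB]
  | b :: w => by
    rw [valB_cons, List.length_cons, pow_succ]
    have := valB_lt w
    split_ifs <;> omega

theorem poly_pad {α : Type} [TEnc α] {m : α → ℕ} {s : α → List Bool} (hm : UPoly m)
    (hs : Poly s) : Poly (fun a => pad (m a) (s a)) := by
  have h1 : UPoly (fun a => m a - (s a).length) :=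
    UPoly.of_le (Poly.sub hm.toPoly (Poly.length hs)) hm (fun a => Nat.sub_le _ _)
  have h2 : Poly (fun a => (List.replicate (m a - (s a).length) ()).map (fun _ => false)) :=
    NPC.Poly.map (F := fun _ _ => false) h1 (NPC.Poly.const _)
  refine (Poly.append hs (Poly.cons (NPC.Poly.const true) h2)).congr fun a => ?_
  unfold pad
  rw [List.map_replicate]

theorem poly_cst {α : Type} [TEnc α] {x s : α → List Bool} {m : α → ℕ} {b : α → Bool}
    (hx : Poly x) (hs : Poly s) (hm : UPoly m) (hb : Poly b) :
    Poly (fun a => cst M (x a) (m a) (s a) (b a)) := by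
  unfold cst
  refine Poly.ite (Poly.decide_eq (Poly.head? ((poly_of_polyTime M.act_poly).comp
    (poly_pairBits hx hs))) (NPC.Poly.const _)) (poly_take ?_ hm) hs
  exact (poly_of_polyTime M.next_poly).comp (poly_pairBits hx (Poly.cons hb hs))

theorem confL_pspace (hR : Poly (fun p : List Bool × List Bool × Bool => R p.1 p.2.1 p.2.2))
    (A : Oracle) : IsPSPACE A (ConfL M R p A) := by
  have hm : UPoly (fun y : List Bool => p.eval (yX y).length) :=
    UPoly.eval (UPoly.length poly_yX) p
  have hact : Poly (fun v : List Bool × ℕ × List Bool => M.act (pairBits (yX v.1) v.2.2)) :=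
    (poly_of_polyTime M.act_poly).comp (poly_pairBits (poly_yX.comp (Poly.fst Poly.id))
      (Poly.snd (Poly.snd Poly.id)))
  have hact' : Poly (fun v : List Bool × Bool × ℕ × List Bool =>
      M.act (pairBits (yX v.1) v.2.2.2)) :=
    (poly_of_polyTime M.act_poly).comp (poly_pairBits (poly_yX.comp (Poly.fst Poly.id))
      (Poly.snd (Poly.snd (Poly.snd Poly.id))))
  have h := pst_of_seq (A := A) (α := List Bool) (σ := ℕ × List Bool) (0, []) rfl
    (fun y v => decide (valB (yC y) ≤ v.1))
    (fun y v => (M.act (pairBits (yX y) v.2)).tail)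
    (fun y b v => (v.1 + 1, cst M (yX y) (p.eval (yX y).length) v.2
      (R (yT y) (M.act (pairBits (yX y) v.2)).tail b)))
    (fun y v => decide (pad (p.eval (yX y).length) v.2 = yS y))
    (Poly.decide_le (Poly.valBits (poly_yC.comp (Poly.fst Poly.id))) (Poly.fst (Poly.snd Poly.id)))
    (Poly.tail hact)
    (Poly.pair (Poly.add (Poly.fst (Poly.snd (Poly.snd Poly.id))) (NPC.Poly.const 1))
      (poly_cst M (poly_yX.comp (Poly.fst Poly.id)) (Poly.snd (Poly.snd (Poly.snd Poly.id)))
      (hm.comp (Poly.fst Poly.id)) (hR.comp (Poly.pair (poly_yT.comp (Poly.fst Poly.id))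
        (Poly.pair (Poly.tail hact') (Poly.fst (Poly.snd Poly.id)))))))
    (Poly.decide_eq (poly_pad (hm.comp (Poly.fst Poly.id)) (Poly.snd (Poly.snd Poly.id)))
      (poly_yS.comp (Poly.fst Poly.id)))
    (fun y t => (t, conf M (pat R A (yT y)) (p.eval (yX y).length) (yX y) t))
    (fun y => rfl) (fun y t _ => rfl) (fun y => valB (yC y)) (fun y => by simp)
    (fun y t ht => by simpa using ht)
  have hxl : ∃ q : Polynomial ℕ, ∀ y : List Bool, (yX y).length ≤ q.eval y.length :=
    length_le_of_poly poly_yX
  have hcl : ∃ q : Polynomial ℕ, ∀ y : List Bool, (yC y).length ≤ q.eval y.length :=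
    length_le_of_poly poly_yC
  obtain ⟨q, hq⟩ := hxl
  obtain ⟨q', hq'⟩ := hcl
  have h2 := h (Polynomial.C 4 * q' + Polynomial.C 4 * p.comp q + Polynomial.C 3) (by
    intro y t ht
    rw [sz_pair]
    have e1 := sz_nat_le t
    have e2 := sz_listBool_le (conf M (pat R A (yT y)) (p.eval (yX y).length) (yX y) t)
    have e3 := length_conf M (pat R A (yT y)) (p.eval (yX y).length) (yX y) t
    have e4 : Nat.size t ≤ (yC y).length := Nat.size_le.2 (lt_of_le_of_lt ht (valB_lt _))
    have e5 := hq' y
    have e6 := eval_mono p (hq y)
    have e7 : y.length ≤ sz y := (length_lt_sz y).le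
    have e8 := eval_mono q' e7
    have e9 := eval_mono (p.comp q) e7
    simp only [Polynomial.eval_add, Polynomial.eval_mul, Polynomial.eval_C,
      Polynomial.eval_comp] at e9 ⊢
    omega)
  have h3 := h2.isPSPACE
  convert h3 using 1
  ext y
  simp [ConfL]

end

/-! ### The language of the algorithm -/

section

variable {M : SAlg} {p : Polynomial ℕ} {B : Oracle} {L : Set (List Bool)}

theorem conf_succ_of_reach {x : List Bool} (h1 : ∀ s, M.Reach B x s → s.length ≤ p.eval x.length)
    {t : ℕ} {r : List Bool} (ht : M.Reach B x (conf M B (p.eval x.length) x t))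
    (hr : M.act (pairBits x (conf M B (p.eval x.length) x t)) = false :: r) :
    conf M B (p.eval x.length) x (t + 1) =
      M.next (pairBits x (B r :: conf M B (p.eval x.length) x t)) := by
  rw [conf, cst, hr, if_pos (by simp), List.tail_cons, List.take_of_length_le]
  exact h1 _ (ht.step hr)

theorem reach_conf {x : List Bool} (h1 : ∀ s, M.Reach B x s → s.length ≤ p.eval x.length) :
    ∀ t, M.Reach B x (conf M B (p.eval x.length) x t) := by
  intro t
  induction t with
  | zero => exact SAlg.Reach.start
  | succ t ih =>
    rcases hr : M.act (pairBits x (conf M B (p.eval x.length) x t)) with _ | ⟨c, r⟩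
    · rw [conf, cst, hr, if_neg (by simp)]
      exact ih
    · cases c with
      | true =>
        rw [conf, cst, hr, if_neg (by simp)]
        exact ih
      | false =>
        rw [conf_succ_of_reach h1 ih hr]
        exact ih.step hr

theorem exists_conf {x : List Bool} (h1 : ∀ s, M.Reach B x s → s.length ≤ p.eval x.length)
    {s : List Bool} (hs : M.Reach B x s) : ∃ t, conf M B (p.eval x.length) x t = s := by
  induction hs with
  | start => exact ⟨0, rfl⟩
  | step _ hr ih =>
    obtain ⟨t, ht⟩ := ih
    subst ht
    exact ⟨t + 1, conf_succ_of_reach h1 (reach_conf h1 t) hr⟩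

theorem conf_add {m : ℕ} {x : List Bool} {i j : ℕ} (h : conf M B m x i = conf M B m x j) :
    ∀ k, conf M B m x (i + k) = conf M B m x (j + k) := by
  intro k
  induction k with
  | zero => exact h
  | succ k ih => rw [← add_assoc, ← add_assoc, conf, conf, ih]

/-- the number of strings of length at most `m` -/
theorem card_short (m : ℕ) : ∃ S : Finset (List Bool), (∀ s : List Bool, s.length ≤ m → s ∈ S) ∧
    S.card < 2 ^ (m + 1) := by
  induction m with
  | zero =>
    refine ⟨{[]}, fun s hs => ?_, by simp⟩
    rw [Finset.mem_singleton, ← List.length_eq_zero_iff]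
    omega
  | succ m ih =>
    obtain ⟨S, h1, h2⟩ := ih
    refine ⟨insert [] (S.image (List.cons true) ∪ S.image (List.cons false)), fun s hs => ?_, ?_⟩
    · rcases s with _ | ⟨b, s⟩
      · exact Finset.mem_insert_self _ _
      · apply Finset.mem_insert_of_mem
        have hs' : s ∈ S := h1 s (by simpa using hs)
        cases b with
        | true => exact Finset.mem_union_left _ (Finset.mem_image_of_mem _ hs')
        | false => exact Finset.mem_union_right _ (Finset.mem_image_of_mem _ hs')
    · refine lt_of_le_of_lt (Finset.card_insert_le _ _) ?_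
      have h3 := Finset.card_union_le (S.image (List.cons true)) (S.image (List.cons false))
      have h4 := Finset.card_image_le (s := S) (f := List.cons true)
      have h5 := Finset.card_image_le (s := S) (f := List.cons false)
      have h6 : 2 ^ (m + 1 + 1) = 2 * 2 ^ (m + 1) := by rw [pow_succ]; ring
      omega

theorem mem_iff_conf (hM : ∀ x, (∀ s, M.Reach B x s → s.length ≤ p.eval x.length) ∧
    ∃ s z, M.Reach B x s ∧ M.act (pairBits x s) = true :: z ∧ (x ∈ L ↔ z = [true]))
    (x : List Bool) : x ∈ L ↔ ∃ t < 2 ^ (p.eval x.length + 1),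
      M.act (pairBits x (conf M B (p.eval x.length) x t)) = [true, true] := by
  classical
  obtain ⟨h1, s, z, h2, h3, h4⟩ := hM x
  constructor
  · intro hx
    have hz : z = [true] := h4.1 hx
    have hex : ∃ t, conf M B (p.eval x.length) x t = s := exists_conf h1 h2
    have ht := Nat.find_spec hex
    set t := Nat.find hex with htd
    refine ⟨t, ?_, by rw [ht, h3, hz]⟩
    -- the configurations up to time t are distinct
    have hinj : Set.InjOn (conf M B (p.eval x.length) x) (Finset.range (t + 1)) := by
      intro i hi j hj hij
      rw [Finset.coe_range, Set.mem_Iio] at hi hj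
      have key : ∀ i j : ℕ, j < t + 1 → conf M B (p.eval x.length) x i =
          conf M B (p.eval x.length) x j → ¬ i < j := by
        intro i j hj hij hlt
        have h5 := conf_add hij (t - j)
        rw [show j + (t - j) = t by omega, ht] at h5
        exact Nat.find_min hex (m := i + (t - j)) (by omega) h5
      have k1 := key i j hj hij
      have k2 := key j i hi hij.symm
      omega
    obtain ⟨S, h5, h6⟩ := card_short (p.eval x.length)
    have h7 : ((Finset.range (t + 1)).image (conf M B (p.eval x.length) x)).card ≤ S.card := by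
      apply Finset.card_le_card
      intro s hs
      obtain ⟨i, _, rfl⟩ := Finset.mem_image.1 hs
      exact h5 _ (length_conf _ _ _ _ _)
    rw [Finset.card_image_of_injOn hinj, Finset.card_range] at h7
    omega
  · rintro ⟨t, _, ht⟩
    have h5 := CC.reach_unique h2 (reach_conf h1 t) ⟨_, h3⟩ ⟨_, ht⟩
    rw [← h5, h3] at ht
    simp only [List.cons.injEq, true_and] at ht
    exact h4.2 ht

end

end Pool.Agent.Helper67.PHP
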