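import Pool.Agent.Helper67.PHP.Tools
import Pool.Agent.TH678.PN.Comp
import Pool.Agent.H620R2.Gauge.P

/-! The language of the parities of intervals. -/

set_option autoImplicit false

namespace Pool.Agent.Helper67.PHP

open Pool.Agent.NPC Finset Pool.Agent.H620R2.Gauge

/-! ### Taking and dropping -/

section

variable {α β : Type} [TEnc α] [TEnc β]

omit [TEnc β] in
theorem take_eq (l : List β) (n : ℕ) :
    (l.zip (List.replicate n ())).map (fun u => u.1) = l.take n := by
  induction l generalizing n with
  | nil => simp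
  | cons b w ih =>
    cases n with
    | zero => simp
    | succ m => simp [List.replicate_succ, ih]

theorem poly_take {l : α → List β} {n : α → ℕ} (hl : Poly l) (hn : UPoly n) :
    Poly (fun a => (l a).take (n a)) :=
  (NPC.Poly.map (F := fun _ u => u.1) (Poly.zip hl hn) (Poly.fst (Poly.snd Poly.id))).congr
    fun a => take_eq (l a) (n a)

theorem poly_drop {l : α → List β} {n : α → ℕ} (hl : Poly l) (hn : Poly n) :
    Poly (fun a => (l a).drop (n a)) := by
  have h1 : UPoly (fun a => (l a).length - n a) :=
    UPoly.of_le (Poly.sub (Poly.length hl) hn) (UPoly.length hl) (fun a => Nat.sub_le _ _)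
  refine (Poly.reverse (poly_take (Poly.reverse hl) h1)).congr fun a => ?_
  rw [List.take_reverse, List.reverse_reverse]
  rcases le_total (n a) (l a).length with h | h
  · congr 1
    omega
  · rw [List.drop_eq_nil_of_le h, List.drop_eq_nil_of_le (by omega)]

end

/-! ### The questions -/

/-- The interval questions: on a string `lo hi w z` consisting of four parts of the same length, the
question is `w` if `w` is in the interval `(lo, hi]` and `z` is zero, and the empty string
otherwise. -/
def gI (v : List Bool) : List Bool :=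
  if (valB (v.take (v.length / 4)) < valB ((v.drop (2 * (v.length / 4))).take (v.length / 4)) ∧
      valB ((v.drop (2 * (v.length / 4))).take (v.length / 4)) ≤
        valB ((v.drop (v.length / 4)).take (v.length / 4))) ∧
      valB (v.drop (3 * (v.length / 4))) = 0
  then (v.drop (2 * (v.length / 4))).take (v.length / 4) else []

theorem poly_gI : Poly gI := by
  have hd : Poly (fun v : List Bool => v.length / 4) :=
    Poly.div (Poly.length Poly.id) (NPC.Poly.const 4)
  have hu : UPoly (fun v : List Bool => v.length / 4) :=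
    UPoly.of_le hd (UPoly.length Poly.id) (fun v => Nat.div_le_self _ _)
  have h1 : Poly (fun v : List Bool => v.take (v.length / 4)) := poly_take Poly.id hu
  have h2 : Poly (fun v : List Bool => (v.drop (v.length / 4)).take (v.length / 4)) :=
    poly_take (poly_drop Poly.id hd) hu
  have h3 : Poly (fun v : List Bool => (v.drop (2 * (v.length / 4))).take (v.length / 4)) :=
    poly_take (poly_drop Poly.id (Poly.mul (NPC.Poly.const 2) hd)) hu
  have h4 : Poly (fun v : List Bool => v.drop (3 * (v.length / 4))) :=
    poly_drop Poly.id (Poly.mul (NPC.Poly.const 3) hd)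
  refine Poly.ite ?_ h3 (NPC.Poly.const [])
  exact Poly.decide_and (Poly.decide_and (Poly.decide_lt (Poly.valBits h1) (Poly.valBits h3))
    (Poly.decide_le (Poly.valBits h3) (Poly.valBits h2)))
    (Poly.decide_eq (Poly.valBits h4) (NPC.Poly.const 0))

theorem valB_bitsOf : ∀ n j : ℕ, valB (bitsOf n j) = j % 2 ^ n := by
  intro n
  induction n with
  | zero => intro j; simp [bitsOf, Nat.mod_one]
  | succ n ih =>
    intro j
    rw [bitsOf, valB, ih, pow_succ, mul_comm (2 ^ n) 2, Nat.mod_mul]
    rcases Nat.mod_two_eq_zero_or_one j with h | h <;> simp [h]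

theorem bitsOf_add (n k : ℕ) : ∀ j : ℕ, bitsOf (n + k) j = bitsOf n j ++ bitsOf k (j / 2 ^ n) := by
  induction n with
  | zero => intro j; simp [bitsOf]
  | succ n ih =>
    intro j
    rw [Nat.succ_add, bitsOf, bitsOf, ih, List.cons_append, Nat.div_div_eq_div_mul, pow_succ,
      mul_comm 2 (2 ^ n)]

theorem bitsOf_mod (n : ℕ) : ∀ j : ℕ, bitsOf n (j % 2 ^ n) = bitsOf n j := by
  induction n with
  | zero => intro j; rfl
  | succ n ih =>
    intro j
    rw [bitsOf, bitsOf]
    have h1 : j % 2 ^ (n + 1) % 2 = j % 2 := by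
      rw [pow_succ, mul_comm]
      exact Nat.mod_mod_of_dvd _ (Dvd.intro _ rfl)
    have h2 : j % 2 ^ (n + 1) / 2 = (j / 2) % 2 ^ n := by
      rw [pow_succ, mul_comm, Nat.mod_mul_right_div_self]
    rw [h1, h2, ih]

theorem gI_eq {n lo hi j : ℕ} (hlo : lo < 2 ^ n) (hhi : hi < 2 ^ n) (hj : j < 2 ^ (2 * n)) :
    gI ((bitsOf n lo ++ bitsOf n hi) ++ bitsOf (2 * n) j) =
      if lo < j ∧ j ≤ hi then bitsOf n j else [] := by
  have e0 : (bitsOf n lo ++ bitsOf n hi) ++ bitsOf (2 * n) j =
      bitsOf n lo ++ (bitsOf n hi ++ (bitsOf n j ++ bitsOf n (j / 2 ^ n))) := by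
    rw [two_mul, bitsOf_add, List.append_assoc]
  rw [e0]
  set v := bitsOf n lo ++ (bitsOf n hi ++ (bitsOf n j ++ bitsOf n (j / 2 ^ n))) with hv
  have hl : v.length / 4 = n := by
    rw [hv]
    simp only [List.length_append, length_bitsOf]
    omega
  have e1 : v.take n = bitsOf n lo := by
    rw [hv, List.take_append_of_le_length (by rw [length_bitsOf]),
      List.take_of_length_le (by rw [length_bitsOf])]
  have e2 : v.drop n = bitsOf n hi ++ (bitsOf n j ++ bitsOf n (j / 2 ^ n)) := by
    rw [hv, List.drop_append_of_le_length (by rw [length_bitsOf]),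
      List.drop_eq_nil_of_le (by rw [length_bitsOf]), List.nil_append]
  have e3 : v.drop (2 * n) = bitsOf n j ++ bitsOf n (j / 2 ^ n) := by
    rw [two_mul, ← List.drop_drop, e2, List.drop_append_of_le_length (by rw [length_bitsOf]),
      List.drop_eq_nil_of_le (by rw [length_bitsOf]), List.nil_append]
  have e4 : v.drop (3 * n) = bitsOf n (j / 2 ^ n) := by
    have : 3 * n = 2 * n + n := by ring
    rw [this, ← List.drop_drop, e3, List.drop_append_of_le_length (by rw [length_bitsOf]),
      List.drop_eq_nil_of_le (by rw [length_bitsOf]), List.nil_append]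
  have e5 : (v.drop n).take n = bitsOf n hi := by
    rw [e2, List.take_append_of_le_length (by rw [length_bitsOf]),
      List.take_of_length_le (by rw [length_bitsOf])]
  have e6 : (v.drop (2 * n)).take n = bitsOf n j := by
    rw [e3, List.take_append_of_le_length (by rw [length_bitsOf]),
      List.take_of_length_le (by rw [length_bitsOf])]
  have hdiv : j / 2 ^ n < 2 ^ n := by
    rw [Nat.div_lt_iff_lt_mul (by positivity), ← pow_add, ← two_mul]
    exact hj
  unfold gI
  rw [hl, e1, e5, e6, e4, valB_bitsOf, valB_bitsOf, valB_bitsOf, valB_bitsOf,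
    Nat.mod_eq_of_lt hlo, Nat.mod_eq_of_lt hhi, Nat.mod_eq_of_lt hdiv]
  by_cases h : lo < j ∧ j ≤ hi
  · have hj2 : j < 2 ^ n := lt_of_le_of_lt h.2 hhi
    rw [if_pos h, if_pos ⟨by rw [Nat.mod_eq_of_lt hj2]; exact h, Nat.div_eq_of_lt hj2⟩]
  · rw [if_neg h, if_neg]
    rintro ⟨h1, h2⟩
    have hj2 : j < 2 ^ n := by
      rcases Nat.div_eq_zero_iff.1 h2 with h3 | h3
      · exact absurd h3 (by positivity)
      · exact h3
    rw [Nat.mod_eq_of_lt hj2] at h1
    exact h h1

/-- The language of the parities of intervals. -/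
def Dlang (A : Oracle) : Set (List Bool) := parLang (fun v => A (gI v))

theorem dlang_pspace (A : Oracle) : IsPSPACE A (Dlang A) :=
  Pool.Agent.TH678.PN.IsPSPACE.of_map poly_gI (parLang_pspace _)

theorem odd_add_iff (a b : ℕ) : decide (Odd (a + b)) = (decide (Odd a) ^^ decide (Odd b)) := by
  rcases Nat.even_or_odd a with h | h <;> rcases Nat.even_or_odd b with h' | h' <;>
    simp [Nat.odd_add, h, h', Nat.not_odd_iff_even.2, Nat.not_even_iff_odd.2]

theorem mem_dlang (A : Oracle) {n lo hi : ℕ} (hlh : lo ≤ hi) (hhi : hi < 2 ^ n) :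
    (bitsOf n lo ++ bitsOf n hi ∈ Dlang A ↔
      (decide (Odd ((Finset.Ioc lo hi).filter (fun j => A (bitsOf n j) = true)).card) ^^
        decide (A [] = true ∧ Odd (2 ^ (2 * n) - (hi - lo)))) = true) := by
  have hlo : lo < 2 ^ n := lt_of_le_of_lt hlh hhi
  have hlen : (bitsOf n lo ++ bitsOf n hi).length = 2 * n := by
    rw [List.length_append, length_bitsOf, length_bitsOf]
    ring
  have hle : 2 ^ n ≤ 2 ^ (2 * n) := Nat.pow_le_pow_right (by norm_num) (by omega)
  unfold Dlang parLang
  rw [Set.mem_ofPred_eq, hlen]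
  have h1 : (Finset.range (2 ^ (2 * n))).filter (fun j =>
      A (gI ((bitsOf n lo ++ bitsOf n hi) ++ bitsOf (2 * n) j)) = true) =
      (Finset.range (2 ^ (2 * n))).filter (fun j =>
        A (if lo < j ∧ j ≤ hi then bitsOf n j else []) = true) := by
    refine Finset.filter_congr fun j hj => ?_
    rw [gI_eq hlo hhi (Finset.mem_range.1 hj)]
  rw [h1]
  have h2 : ((Finset.range (2 ^ (2 * n))).filter (fun j =>
        A (if lo < j ∧ j ≤ hi then bitsOf n j else []) = true)).card =
      ((Finset.Ioc lo hi).filter (fun j => A (bitsOf n j) = true)).card +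
        (if A [] = true then 2 ^ (2 * n) - (hi - lo) else 0) := by
    rw [← Finset.card_filter_add_card_filter_not (s := (Finset.range (2 ^ (2 * n))).filter (fun j =>
        A (if lo < j ∧ j ≤ hi then bitsOf n j else []) = true)) (fun j => j ∈ Finset.Ioc lo hi)]
    congr 1
    · congr 1
      ext j
      simp only [Finset.mem_filter, Finset.mem_range, Finset.mem_Ioc]
      constructor
      · rintro ⟨⟨_, h⟩, h'⟩
        rw [if_pos h'] at h
        exact ⟨h', h⟩
      · rintro ⟨h', h⟩
        rw [if_pos h']
        exact ⟨⟨by omega, h⟩, h'⟩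
    · by_cases hA : A [] = true
      · rw [if_pos hA]
        have h3 : ((Finset.range (2 ^ (2 * n))).filter (fun j =>
            A (if lo < j ∧ j ≤ hi then bitsOf n j else []) = true)).filter
            (fun j => ¬ j ∈ Finset.Ioc lo hi) = Finset.range (2 ^ (2 * n)) \ Finset.Ioc lo hi := by
          ext j
          simp only [Finset.mem_filter, Finset.mem_range, Finset.mem_Ioc, Finset.mem_sdiff]
          constructor
          · rintro ⟨⟨h, _⟩, h'⟩
            exact ⟨h, h'⟩
          · rintro ⟨h, h'⟩
            rw [if_neg h']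
            exact ⟨⟨h, hA⟩, h'⟩
        rw [h3, Finset.card_sdiff_of_subset, Finset.card_range, Nat.card_Ioc]
        intro j hj
        rw [Finset.mem_Ioc] at hj
        rw [Finset.mem_range]
        omega
      · rw [if_neg hA, Finset.card_eq_zero, Finset.filter_eq_empty_iff]
        intro j hj
        rw [Finset.mem_filter] at hj
        intro hn
        rw [Finset.mem_Ioc] at hn
        rw [if_neg hn] at hj
        exact hA hj.2
  rw [h2, ← decide_eq_true_eq (p := Odd _), odd_add_iff]
  by_cases hA : A [] = true <;> simp [hA]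

end Pool.Agent.Helper67.PHP
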