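import Pool.Agent.Helper67.PHP.Conf

/-! The theorem of Karp and Lipton for polynomial space, relative to an oracle. -/

set_option autoImplicit false

namespace Pool.Agent.Helper67.PHP

open Pool.Agent.NPC Pool.Agent.H622R2 Pool.Agent.H620R2.Gauge

/-- fill up with zeros -/
def cw (N : ℕ) (w : List Bool) : List Bool := w ++ List.replicate (N - w.length) false

theorem poly_cw {α : Type} [TEnc α] {N : α → ℕ} {w : α → List Bool} (hN : UPoly N)
    (hw : Poly w) : Poly (fun a => cw (N a) (w a)) := by
  have h1 : UPoly (fun a => N a - (w a).length) :=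
    UPoly.of_le (Poly.sub hN.toPoly (Poly.length hw)) hN (fun a => Nat.sub_le _ _)
  have h2 : Poly (fun a => (List.replicate (N a - (w a).length) ()).map (fun _ => false)) :=
    NPC.Poly.map (F := fun _ _ => false) h1 (NPC.Poly.const _)
  refine (Poly.append hw h2).congr fun a => ?_
  unfold cw
  rw [List.map_replicate]

theorem bitsOf_valB : ∀ c : List Bool, bitsOf c.length (valB c) = c
  | [] => rfl
  | b :: c => by
    rw [List.length_cons, bitsOf, valB_cons]
    have h1 : ((if b = true then 1 else 0) + 2 * valB c) / 2 = valB c := by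
      split_ifs <;> omega
    have h2 : (((if b = true then 1 else 0) + 2 * valB c) % 2 == 1) = b := by
      cases b <;> simp [Nat.add_mod]
    rw [h1, h2, bitsOf_valB c]

theorem length_cw {N : ℕ} {w : List Bool} (h : w.length ≤ N) : (cw N w).length = N := by
  unfold cw
  simp
  omega

theorem cw_of_length {N : ℕ} {w : List Bool} (h : w.length = N) : cw N w = w := by
  unfold cw
  rw [h]
  simp

section

variable {A : Oracle} {L' : Set (List Bool)} (M : SAlg) (p : Polynomial ℕ)

/-- the question to the guessed circuit -/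
def WW (L' : Set (List Bool)) (g x c s : List Bool) : Prop :=
  pairBits (pairBits (pairBits [] x) (pairBits c s)) g ∈ L'

theorem ph_WW (hL' : IsPH A L') {γ : Type} [TEnc γ] [TDec γ] {G X C S : γ → List Bool}
    (hG : Poly G) (hX : Poly X) (hC : Poly C) (hS : Poly S) :
    PHt A (fun v => WW L' (G v) (X v) (C v) (S v)) :=
  (PHt.of_isPH hL').pre (f := fun v => pairBits (pairBits (pairBits [] (X v))
    (pairBits (C v) (S v))) (G v)) (poly_pairBits (poly_pairBits (poly_pairBits
      (NPC.Poly.const []) hX) (poly_pairBits hC hS)) hG)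

/-- the bound for the memory -/
def mm (x : List Bool) : ℕ := p.eval x.length

theorem upoly_mm {γ : Type} [TEnc γ] {X : γ → List Bool} (hX : Poly X) :
    UPoly (fun v => mm p (X v)) := UPoly.eval (UPoly.length hX) p

/-- the circuit is right about the start -/
def Ch0 (L' : Set (List Bool)) (g x : List Bool) : Prop :=
  ∀ s : List Bool, s.length ≤ mm p x →
    (WW L' g x (cw (mm p x + 1) []) (pad (mm p x) s) ↔ s = [])

/-- the circuit is right about the steps -/
def Ch1 (A : Oracle) (L' : Set (List Bool)) (g x : List Bool) : Prop :=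
  ∀ w : List Bool, w.length ≤ mm p x + 1 → ∀ s : List Bool, s.length ≤ mm p x →
    ∀ s' : List Bool, s'.length ≤ mm p x → ∀ b : Bool,
    ¬ PTask.inc (cw (mm p x + 1) w) = cw (mm p x + 1) [] →
    (b = true ↔ A (M.act (pairBits x s)).tail = true) →
    WW L' g x (cw (mm p x + 1) w) (pad (mm p x) s) →
    (WW L' g x (PTask.inc (cw (mm p x + 1) w)) (pad (mm p x) s') ↔ s' = cst M x (mm p x) s b)

/-- the circuit tells that the algorithm accepts -/
def Ch2 (L' : Set (List Bool)) (g x : List Bool) : Prop :=
  ∃ w : List Bool, w.length ≤ mm p x + 1 ∧ ∃ s : List Bool, s.length ≤ mm p x ∧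
    (WW L' g x (cw (mm p x + 1) w) (pad (mm p x) s) ∧ M.act (pairBits x s) = [true, true])

theorem ph_ch0 (hL' : IsPH A L') :
    PHt A (fun a : List Bool × List Bool => Ch0 p L' a.1 a.2) := by
  have hx : Poly (fun v : List Bool × List Bool × List Bool => v.2.2) :=
    Poly.snd (Poly.snd Poly.id)
  have hg : Poly (fun v : List Bool × List Bool × List Bool => v.2.1) :=
    Poly.fst (Poly.snd Poly.id)
  have hs : Poly (fun v : List Bool × List Bool × List Bool => v.1) := Poly.fst Poly.id
  have h1 : PHt A (fun v : List Bool × List Bool × List Bool =>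
      (WW L' v.2.1 v.2.2 (cw (mm p v.2.2 + 1) []) (pad (mm p v.2.2) v.1) ↔ v.1 = [])) :=
    (ph_WW hL' hg hx (poly_cw (UPoly.add (upoly_mm p hx) (UPoly.const 1)) (NPC.Poly.const []))
      (poly_pad (upoly_mm p hx) hs)).iff (PHt.eq hs (NPC.Poly.const []))
  exact h1.all (b := fun a => mm p a.2) (upoly_mm p (Poly.snd Poly.id))

theorem ph_ch1 (hL' : IsPH A L') :
    PHt A (fun a : List Bool × List Bool => Ch1 M p A L' a.1 a.2) := by
  have hv : Poly (fun v : Bool × List Bool × List Bool × List Bool × List Bool × List Bool =>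
      v.2) := Poly.snd Poly.id
  have hb : Poly (fun v : Bool × List Bool × List Bool × List Bool × List Bool × List Bool =>
      v.1) := Poly.fst Poly.id
  have hs' := Poly.fst hv
  have hs := Poly.fst (Poly.snd hv)
  have hw := Poly.fst (Poly.snd (Poly.snd hv))
  have hg := Poly.fst (Poly.snd (Poly.snd (Poly.snd hv)))
  have hx := Poly.snd (Poly.snd (Poly.snd (Poly.snd hv)))
  have hN := UPoly.add (upoly_mm p hx) (UPoly.const 1)
  have hc := poly_cw hN hw
  have hc' := PTask.poly_inc.comp hc
  have hz := poly_cw hN (NPC.Poly.const ([] : List Bool))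
  have hact := (poly_of_polyTime M.act_poly).comp (poly_pairBits hx hs)
  have h1 := ((PHt.eq (A := A) hc' hz).not).imp (((PHt.eq (A := A) hb
    (NPC.Poly.const true)).iff (PHt.orc (A := A) (Poly.tail hact))).imp
    ((ph_WW hL' hg hx hc (poly_pad (upoly_mm p hx) hs)).imp
    ((ph_WW hL' hg hx hc' (poly_pad (upoly_mm p hx) hs')).iff
      (PHt.eq hs' (poly_cst M hx hs (upoly_mm p hx) hb)))))
  have h2 := h1.allBool
  have k1 : Poly (fun v : List Bool × List Bool × List Bool × List Bool => v.2.2.2) :=
    Poly.snd (Poly.snd (Poly.snd Poly.id))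
  have k2 : Poly (fun v : List Bool × List Bool × List Bool => v.2.2) :=
    Poly.snd (Poly.snd Poly.id)
  have h3 := h2.all (b := fun v => mm p v.2.2.2) (upoly_mm p k1)
  have h4 := h3.all (b := fun v => mm p v.2.2) (upoly_mm p k2)
  have h5 := h4.all (b := fun v => mm p v.2 + 1)
    (UPoly.add (upoly_mm p (Poly.snd Poly.id)) (UPoly.const 1))
  exact h5

theorem ph_ch2 (hL' : IsPH A L') :
    PHt A (fun a : List Bool × List Bool => Ch2 M p L' a.1 a.2) := by
  have hs : Poly (fun v : List Bool × List Bool × List Bool × List Bool => v.1) := Poly.fst Poly.id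
  have hw : Poly (fun v : List Bool × List Bool × List Bool × List Bool => v.2.1) :=
    Poly.fst (Poly.snd Poly.id)
  have hg : Poly (fun v : List Bool × List Bool × List Bool × List Bool => v.2.2.1) :=
    Poly.fst (Poly.snd (Poly.snd Poly.id))
  have hx : Poly (fun v : List Bool × List Bool × List Bool × List Bool => v.2.2.2) :=
    Poly.snd (Poly.snd (Poly.snd Poly.id))
  have hN := UPoly.add (upoly_mm p hx) (UPoly.const 1)
  have hact := (poly_of_polyTime M.act_poly).comp (poly_pairBits hx hs)
  have h1 := (ph_WW hL' hg hx (poly_cw hN hw) (poly_pad (upoly_mm p hx) hs)).and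
    (PHt.eq (A := A) hact (NPC.Poly.const [true, true]))
  have k2 : Poly (fun v : List Bool × List Bool × List Bool => v.2.2) :=
    Poly.snd (Poly.snd Poly.id)
  have h3 := h1.ex (b := fun v => mm p v.2.2) (upoly_mm p k2)
  have h4 := h3.ex (b := fun v => mm p v.2 + 1)
    (UPoly.add (upoly_mm p (Poly.snd Poly.id)) (UPoly.const 1))
  exact h4

end

section

variable {A : Oracle} {L' : Set (List Bool)} {M : SAlg} {p : Polynomial ℕ}

/-- a circuit which passes the tests is right -/
theorem right_of_checks {g x : List Bool} (h0 : Ch0 p L' g x) (h1 : Ch1 M p A L' g x) :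
    ∀ t < 2 ^ (mm p x + 1), ∀ s : List Bool, s.length ≤ mm p x →
      (WW L' g x (bitsOf (mm p x + 1) t) (pad (mm p x) s) ↔ s = conf M A (mm p x) x t) := by
  have hz : cw (mm p x + 1) [] = bitsOf (mm p x + 1) 0 := by
    have := (PTask.bitsOf_eq_zero (mm p x + 1) 0).2 (by simp)
    rw [this]
    simp [cw]
  intro t
  induction t with
  | zero =>
    intro _ s hs
    rw [← hz]
    exact h0 s hs
  | succ t ih =>
    intro ht s hs
    have e1 : cw (mm p x + 1) (bitsOf (mm p x + 1) t) = bitsOf (mm p x + 1) t :=
      cw_of_length (length_bitsOf _ _)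
    have h2 := h1 (bitsOf (mm p x + 1) t) (by rw [length_bitsOf])
      (conf M A (mm p x) x t) (length_conf _ _ _ _ _) s hs
      (A (M.act (pairBits x (conf M A (mm p x) x t))).tail)
    rw [e1, PTask.inc_bitsOf] at h2
    refine h2 ?_ Iff.rfl ((ih (by omega) _ (length_conf _ _ _ _ _)).2 rfl)
    rw [hz]
    intro h3
    have h4 := congrArg valB h3
    rw [valB_bitsOf, valB_bitsOf, Nat.mod_eq_of_lt ht] at h4
    simp at h4

theorem conf_pat (A : Oracle) (τ : List Bool) :
    pat (fun _ _ b => b) A τ = A := rfl

/-- Karp and Lipton: if polynomial space relative to `A` is contained in the polynomial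
hierarchy relative to `A` with polynomial advice, then also without advice. -/
theorem karp_lipton (H : ∀ L, IsPSPACE A L → IsPHpoly A L) {L : Set (List Bool)}
    (hL : IsPSPACE A L) : IsPH A L := by
  obtain ⟨M, p, hM⟩ := hL
  have hc := confL_pspace M (fun _ _ b => b) p (Poly.snd (Poly.snd Poly.id)) A
  obtain ⟨L', h, p', hL', hh, hx⟩ := H _ hc
  have hell : ∀ {x c s : List Bool}, c.length = mm p x + 1 → s.length = mm p x + 1 →
      (pairBits (pairBits [] x) (pairBits c s)).length =
        (Polynomial.C 2 * Polynomial.X + Polynomial.C 3 * p + Polynomial.C 7).eval x.length := by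
    intro x c s h1 h2
    rw [length_pairBits, length_pairBits, length_pairBits, h1, h2]
    simp only [mm, List.length_nil, Polynomial.eval_add, Polynomial.eval_mul, Polynomial.eval_C,
      Polynomial.eval_X]
    ring
  set ℓ : Polynomial ℕ := Polynomial.C 2 * Polynomial.X + Polynomial.C 3 * p + Polynomial.C 7
    with hℓ
  -- the formula
  have hF : PHt A (fun x : List Bool => ∃ g : List Bool, g.length ≤ (p'.comp ℓ).eval x.length ∧
      (Ch0 p L' g x ∧ Ch1 M p A L' g x ∧ Ch2 M p L' g x)) :=
    PHt.ex (P := fun a : List Bool × List Bool => Ch0 p L' a.1 a.2 ∧ Ch1 M p A L' a.1 a.2 ∧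
      Ch2 M p L' a.1 a.2) ((ph_ch0 p hL').and ((ph_ch1 M p hL').and (ph_ch2 M p hL')))
      (b := fun x => (p'.comp ℓ).eval x.length) (UPoly.eval (UPoly.length Poly.id) _)
  have hF' := hF.isPH
  convert hF' using 1
  ext x
  rw [mem_iff_conf hM x]
  simp only [Set.mem_ofPred_eq]
  constructor
  · rintro ⟨t, ht, hacc⟩
    -- the right advice
    have hW : ∀ c s : List Bool, c.length = mm p x + 1 → s.length ≤ mm p x →
        (WW L' (h (ℓ.eval x.length)) x c (pad (mm p x) s) ↔ s = conf M A (mm p x) x (valB c)) := by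
      intro c s hc hs
      have h1 := hx (pairBits (pairBits [] x) (pairBits c (pad (mm p x) s)))
      rw [hell hc (length_pad hs), mem_confL] at h1
      unfold WW
      rw [← h1]
      constructor
      · intro h2
        exact (pad_inj (length_conf _ _ _ _ _) hs h2).symm
      · intro h2
        rw [h2]
        rfl
    refine ⟨h (ℓ.eval x.length), ?_, ?_, ?_, ?_⟩
    · rw [Polynomial.eval_comp]
      exact hh _
    · intro s hs
      rw [hW _ _ (length_cw (by simp)) hs]
      have e1 : valB (cw (mm p x + 1) []) = 0 := by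
        have := (PTask.bitsOf_eq_zero (mm p x + 1) 0).2 (by simp)
        have e2 : cw (mm p x + 1) [] = bitsOf (mm p x + 1) 0 := by
          rw [this]
          simp [cw]
        rw [e2, valB_bitsOf]
        simp
      rw [e1]
      rfl
    · intro w hw s hs s' hs' b hne hb hWs
      rw [hW _ _ (length_cw hw) hs] at hWs
      have e1 : bitsOf (mm p x + 1) (valB (cw (mm p x + 1) w)) = cw (mm p x + 1) w := by
        have := bitsOf_valB (cw (mm p x + 1) w)
        rwa [length_cw hw] at this
      have e2 : PTask.inc (cw (mm p x + 1) w) =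
          bitsOf (mm p x + 1) (valB (cw (mm p x + 1) w) + 1) := by
        rw [← PTask.inc_bitsOf, e1]
      have hlt := valB_lt (cw (mm p x + 1) w)
      rw [length_cw hw] at hlt
      have e3 : valB (PTask.inc (cw (mm p x + 1) w)) = valB (cw (mm p x + 1) w) + 1 := by
        rw [e2, valB_bitsOf]
        apply Nat.mod_eq_of_lt
        by_contra hge
        have h5 : valB (cw (mm p x + 1) w) + 1 = 2 ^ (mm p x + 1) := by omega
        apply hne
        rw [e2, h5, (PTask.bitsOf_eq_zero (mm p x + 1) _).2 (Nat.mod_self _)]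
        simp [cw]
      rw [hW _ _ (by rw [e2, length_bitsOf]) hs', e3, conf, ← hWs]
      have e4 : b = A (M.act (pairBits x s)).tail := Bool.eq_iff_iff.2 hb
      rw [e4]
    · refine ⟨bitsOf (mm p x + 1) t, by rw [length_bitsOf], conf M A (mm p x) x t,
        length_conf _ _ _ _ _, ?_, hacc⟩
      rw [hW _ _ (length_cw (by rw [length_bitsOf])) (length_conf _ _ _ _ _),
        cw_of_length (length_bitsOf _ _), valB_bitsOf]
      have ht' : t < 2 ^ (mm p x + 1) := ht
      rw [Nat.mod_eq_of_lt ht']
  · rintro ⟨g, _, h0, h1, w, hw, s, hs, hWs, hacc⟩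
    have h2 := right_of_checks h0 h1
    have hlt := valB_lt (cw (mm p x + 1) w)
    rw [length_cw hw] at hlt
    have e1 : bitsOf (mm p x + 1) (valB (cw (mm p x + 1) w)) = cw (mm p x + 1) w := by
      have := bitsOf_valB (cw (mm p x + 1) w)
      rwa [length_cw hw] at this
    have h3 := h2 _ hlt s hs
    rw [e1] at h3
    have h4 := h3.1 hWs
    refine ⟨_, hlt, ?_⟩
    show M.act (pairBits x (conf M A (mm p x) x _)) = _
    rw [← h4]
    exact hacc

end

end Pool.Agent.Helper67.PHP
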