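import Pool.Agent.Helper67.PHP.Interval
import Pool.Agent.H620R2.Gauge.Event

/-! Oracles which are changed on a set of strings. -/

set_option autoImplicit false

namespace Pool.Agent.Helper67.PHP

open Pool.Agent.NPC Finset Pool.Agent.H620R2.Gauge

open Classical in
/-- The oracle which agrees with `C` on `T` and with `O` outside `T`. -/
noncomputable def mix (T : Set (List Bool)) (C O : Oracle) : Oracle := fun y =>
  if y ∈ T then C y else O y

theorem mix_mem {T : Set (List Bool)} {C O : Oracle} {y : List Bool} (h : y ∈ T) :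
    mix T C O y = C y := by
  unfold mix
  rw [if_pos h]

theorem mix_not_mem {T : Set (List Bool)} {C O : Oracle} {y : List Bool} (h : y ∉ T) :
    mix T C O y = O y := by
  unfold mix
  rw [if_neg h]

theorem simple_mix (T : Set (List Bool)) (O : Oracle) (N : ℕ) :
    Simple (fun a : Fin N → Bool => mix T (orc N a) O) := by
  intro q
  by_cases hT : q ∈ T
  · by_cases hN : idx q < N
    · left
      exact ⟨⟨idx q, hN⟩, fun a => by simp [mix, hT, orc, hN]⟩
    · right
      exact ⟨false, fun a => by simp [mix, hT, orc, hN]⟩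
  · right
    exact ⟨O q, fun a => by simp [mix, hT]⟩

open Classical in
/-- The positions of the strings of `T` in an interval. -/
noncomputable def blkT (T : Set (List Bool)) (N n lo hi : ℕ) : Finset (Fin N) :=
  univ.filter (fun i => ∃ j ∈ Finset.Ioc lo hi, bitsOf n j ∈ T ∧ str i = bitsOf n j)

open Classical in
theorem blkT_card_filter (T : Set (List Bool)) {N n lo hi : ℕ} (hN : 2 ^ (n + 1) ≤ N)
    (hhi : hi < 2 ^ n) (P : List Bool → Prop) [DecidablePred P] :
    ((blkT T N n lo hi).filter (fun i : Fin N => P (str i))).card =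
      ((Finset.Ioc lo hi).filter (fun j => bitsOf n j ∈ T ∧ P (bitsOf n j))).card := by
  symm
  have hlt : ∀ j, idx (bitsOf n j) < N := by
    intro j
    have h1 := idx_lt (bitsOf n j)
    rw [length_bitsOf] at h1
    omega
  refine Finset.card_bij (fun j _ => ⟨idx (bitsOf n j), hlt j⟩) ?_ ?_ ?_
  · intro j hj
    rw [Finset.mem_filter] at hj
    rw [Finset.mem_filter, blkT, Finset.mem_filter]
    refine ⟨⟨Finset.mem_univ _, j, hj.1, hj.2.1, ?_⟩, ?_⟩
    · exact str_idx _
    · change P (str (idx (bitsOf n j)))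
      rw [str_idx]
      exact hj.2.2
  · intro j hj j' hj' h
    rw [Finset.mem_filter, Finset.mem_Ioc] at hj hj'
    have h1 : idx (bitsOf n j) = idx (bitsOf n j') := by simpa using h
    have h2 : bitsOf n j = bitsOf n j' := by rw [← str_idx (bitsOf n j), h1, str_idx]
    exact bitsOf_inj (by omega) (by omega) h2
  · intro i hi
    rw [Finset.mem_filter, blkT, Finset.mem_filter] at hi
    obtain ⟨⟨_, j, hj, hT, hij⟩, hP⟩ := hi
    refine ⟨j, ?_, ?_⟩
    · rw [Finset.mem_filter]
      exact ⟨hj, hT, by rw [← hij]; exact hP⟩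
    · apply Fin.ext
      change idx (bitsOf n j) = i
      rw [← hij, idx_str]

open Classical in
/-- The contribution of the strings outside `T`. -/
noncomputable def con (T : Set (List Bool)) (O : Oracle) (n lo hi : ℕ) (β : Bool) : Bool :=
  (decide (Odd ((Finset.Ioc lo hi).filter (fun j => bitsOf n j ∉ T ∧ O (bitsOf n j) = true)).card) ^^
    decide (β = true ∧ Odd (2 ^ (2 * n) - (hi - lo))))

theorem mem_dlang_mix (T : Set (List Bool)) (C O : Oracle) {N n lo hi : ℕ} (hN : 2 ^ (n + 1) ≤ N)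
    (hlh : lo ≤ hi) (hhi : hi < 2 ^ n) :
    bitsOf n lo ++ bitsOf n hi ∈ Dlang (mix T C O) ↔
      (par (blkT T N n lo hi) (pre N C) ^^ con T O n lo hi (mix T C O [])) = true := by
  classical
  rw [mem_dlang _ hlh hhi]
  have h1 : ((Finset.Ioc lo hi).filter (fun j => mix T C O (bitsOf n j) = true)).card =
      ((Finset.Ioc lo hi).filter (fun j => bitsOf n j ∈ T ∧ C (bitsOf n j) = true)).card +
      ((Finset.Ioc lo hi).filter (fun j => bitsOf n j ∉ T ∧ O (bitsOf n j) = true)).card := by
    rw [← Finset.card_filter_add_card_filter_not (s := (Finset.Ioc lo hi).filter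
      (fun j => mix T C O (bitsOf n j) = true)) (fun j => bitsOf n j ∈ T)]
    congr 2
    · ext j
      simp only [Finset.mem_filter, Finset.mem_Ioc]
      constructor
      · rintro ⟨⟨h, h'⟩, hT⟩
        rw [mix_mem hT] at h'
        exact ⟨h, hT, h'⟩
      · rintro ⟨h, hT, h'⟩
        rw [mix_mem hT]
        exact ⟨⟨h, h'⟩, hT⟩
    · ext j
      simp only [Finset.mem_filter, Finset.mem_Ioc]
      constructor
      · rintro ⟨⟨h, h'⟩, hT⟩
        rw [mix_not_mem hT] at h'
        exact ⟨h, hT, h'⟩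
      · rintro ⟨h, hT, h'⟩
        rw [mix_not_mem hT]
        exact ⟨⟨h, h'⟩, hT⟩
  have h2 := blkT_card_filter T (lo := lo) hN hhi (fun y => C y = true)
  have h3 : par (blkT T N n lo hi) (pre N C) = decide (Odd ((Finset.Ioc lo hi).filter
      (fun j => bitsOf n j ∈ T ∧ C (bitsOf n j) = true)).card) := by
    have h4 : ((blkT T N n lo hi).filter (fun i => pre N C i = true)).card =
        ((Finset.Ioc lo hi).filter (fun j => bitsOf n j ∈ T ∧ C (bitsOf n j) = true)).card := by
      refine Eq.trans ?_ (h2.trans ?_)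
      · rfl
      · congr 1
    unfold par
    rw [h4]
  rw [h1, odd_add_iff, h3, con, Bool.xor_assoc]

theorem blkT_card (T : Set (List Bool)) {N n lo hi : ℕ} (hN : 2 ^ (n + 1) ≤ N)
    (hhi : hi < 2 ^ n) [DecidablePred fun j => bitsOf n j ∈ T] :
    (blkT T N n lo hi).card = ((Finset.Ioc lo hi).filter (fun j => bitsOf n j ∈ T)).card := by
  classical
  have h := blkT_card_filter T (lo := lo) hN hhi (fun _ => True)
  simp only [Finset.filter_true, and_true] at h
  rw [h]

theorem blkT_disj (T : Set (List Bool)) {N n lo hi lo' hi' : ℕ} (hhi : hi < 2 ^ n)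
    (hhi' : hi' < 2 ^ n) (h : Disjoint (Finset.Ioc lo hi) (Finset.Ioc lo' hi')) :
    Disjoint (blkT T N n lo hi) (blkT T N n lo' hi') := by
  classical
  rw [Finset.disjoint_left] at h ⊢
  intro i hi1 hi2
  rw [blkT, Finset.mem_filter] at hi1 hi2
  obtain ⟨_, j, hj, _, hij⟩ := hi1
  obtain ⟨_, j', hj', _, hij'⟩ := hi2
  have h1 := Finset.mem_Ioc.1 hj
  have h2 := Finset.mem_Ioc.1 hj'
  have h3 : j = j' := bitsOf_inj (n := n) (by omega) (by omega) (by rw [← hij, hij'])
  subst h3
  exact h hj hj'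

/-! ### Splitting a set into intervals -/

theorem exists_count (V : Finset ℕ) (c v : ℕ) (hv : v ≤ ((Finset.Ioc 0 c).filter (· ∈ V)).card) :
    ∃ τ ≤ c, ((Finset.Ioc 0 τ).filter (· ∈ V)).card = v := by
  induction c with
  | zero =>
    refine ⟨0, le_rfl, ?_⟩
    simp at hv ⊢
    exact hv.symm
  | succ c ih =>
    by_cases h : v ≤ ((Finset.Ioc 0 c).filter (· ∈ V)).card
    · obtain ⟨τ, h1, h2⟩ := ih h
      exact ⟨τ, by omega, h2⟩
    · refine ⟨c + 1, le_rfl, ?_⟩
      have h1 : (Finset.Ioc 0 (c + 1)).filter (· ∈ V) ⊆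
          insert (c + 1) ((Finset.Ioc 0 c).filter (· ∈ V)) := by
        intro j hj
        rw [Finset.mem_filter, Finset.mem_Ioc] at hj
        rw [Finset.mem_insert, Finset.mem_filter, Finset.mem_Ioc]
        by_cases h2 : j = c + 1
        · exact Or.inl h2
        · exact Or.inr ⟨⟨hj.1.1, by omega⟩, hj.2⟩
      have h2 := (Finset.card_le_card h1).trans (Finset.card_insert_le _ _)
      omega

theorem exists_split (V : Finset ℕ) (c K b : ℕ)
    (hv : K * b ≤ ((Finset.Ioc 0 c).filter (· ∈ V)).card) :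
    ∃ τ : ℕ → ℕ, (∀ i ≤ K, τ i ≤ c) ∧ (∀ i j, i ≤ j → j ≤ K → τ i ≤ τ j) ∧
      ∀ i < K, ((Finset.Ioc (τ i) (τ (i + 1))).filter (· ∈ V)).card = b := by
  rcases Nat.eq_zero_or_pos b with hb | hb
  · refine ⟨fun _ => 0, fun i _ => Nat.zero_le _, fun i j _ _ => le_rfl, fun i _ => ?_⟩
    simp [hb]
  have h1 : ∀ i : ℕ, i ≤ K → ∃ τ ≤ c, ((Finset.Ioc 0 τ).filter (· ∈ V)).card = i * b := by
    intro i hi
    exact exists_count V c _ ((Nat.mul_le_mul_right b hi).trans hv)
  choose! τ hτ hτ' using h1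
  have hmono : ∀ i j, i ≤ j → j ≤ K → τ i ≤ τ j := by
    intro i j hij hj
    rcases hij.eq_or_lt with h | h
    · rw [h]
    · by_contra hcon
      push Not at hcon
      have h2 : (Finset.Ioc 0 (τ j)).filter (· ∈ V) ⊆ (Finset.Ioc 0 (τ i)).filter (· ∈ V) :=
        Finset.filter_subset_filter _ (Finset.Ioc_subset_Ioc_right hcon.le)
      have h3 := Finset.card_le_card h2
      rw [hτ' i (by omega), hτ' j hj] at h3
      have h4 := Nat.le_of_mul_le_mul_right h3 hb
      omega
  refine ⟨τ, hτ, hmono, fun i hi => ?_⟩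
  have h2 : (Finset.Ioc 0 (τ (i + 1))).filter (· ∈ V) = (Finset.Ioc 0 (τ i)).filter (· ∈ V) ∪
      (Finset.Ioc (τ i) (τ (i + 1))).filter (· ∈ V) := by
    rw [← Finset.filter_union, Finset.Ioc_union_Ioc_eq_Ioc (Nat.zero_le _)
      (hmono i (i + 1) (Nat.le_succ i) hi)]
  have h3 : Disjoint ((Finset.Ioc 0 (τ i)).filter (· ∈ V))
      ((Finset.Ioc (τ i) (τ (i + 1))).filter (· ∈ V)) := by
    apply Finset.disjoint_filter_filter
    rw [Finset.disjoint_left]
    intro j hj hj'
    rw [Finset.mem_Ioc] at hj hj'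
    omega
  have h4 := Finset.card_union_of_disjoint h3
  rw [← h2, hτ' i (by omega), hτ' (i + 1) hi] at h4
  have h5 : (i + 1) * b = i * b + b := by ring
  omega

end Pool.Agent.Helper67.PHP
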