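import Pool.Agent.Helper67.PHP.Mix
import Pool.Agent.H620R2.Gauge.Cover

/-! Changing an oracle at random on a set of strings which is not sparse. -/

set_option autoImplicit false

namespace Pool.Agent.Helper67.PHP

open Pool.Agent.NPC Finset Pool.Agent.H620R2.Gauge H568R2 Pool.Agent.H676 MeasureTheory
open Pool.Agent.H628R3.RO (randomOracle)

/-- A set of strings is sparse if the number of its members of length at most `n` is polynomially
bounded in `n`. -/
def Sparse (T : Set (List Bool)) : Prop :=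
  ∃ r : Polynomial ℕ, ∀ n, Set.ncard {w : List Bool | w ∈ T ∧ w.length ≤ n} ≤ r.eval n

open Classical in
/-- The numbers of the strings of length `n` in `T`. -/
noncomputable def numT (T : Set (List Bool)) (n : ℕ) : Finset ℕ :=
  (Finset.range (2 ^ n)).filter (fun j => bitsOf n j ∈ T)

theorem card_numT (T : Set (List Bool)) (n : ℕ) :
    (numT T n).card ≤ ((Finset.Ioc 0 (2 ^ n - 1)).filter (· ∈ numT T n)).card + 1 := by
  classical
  have h1 : numT T n ⊆ insert 0 ((Finset.Ioc 0 (2 ^ n - 1)).filter (· ∈ numT T n)) := by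
    intro j hj
    rw [Finset.mem_insert, Finset.mem_filter, Finset.mem_Ioc]
    have h2 : j < 2 ^ n := by
      unfold numT at hj
      exact Finset.mem_range.1 (Finset.mem_filter.1 hj).1
    by_cases h0 : j = 0
    · exact Or.inl h0
    · exact Or.inr ⟨⟨Nat.pos_of_ne_zero h0, by omega⟩, hj⟩
  exact (Finset.card_le_card h1).trans (Finset.card_insert_le _ _)

theorem exists_large {T : Set (List Bool)} (hT : ¬ Sparse T) (S : Polynomial ℕ) (n₀ : ℕ) :
    ∃ n ≥ n₀, S.eval n ≤ ((Finset.Ioc 0 (2 ^ n - 1)).filter (· ∈ numT T n)).card := by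
  classical
  by_contra hcon
  push Not at hcon
  apply hT
  refine ⟨(Polynomial.X + 1) * (S + 1 + Polynomial.C (2 ^ n₀)), fun n => ?_⟩
  have h1 : {w : List Bool | w ∈ T ∧ w.length ≤ n} ⊆
      (((Finset.range (n + 1)).biUnion fun i => (numT T i).image (bitsOf i) :
        Finset (List Bool)) : Set (List Bool)) := by
    rintro w ⟨hw, hwn⟩
    rw [Finset.mem_coe, Finset.mem_biUnion]
    refine ⟨w.length, Finset.mem_range.2 (by omega), ?_⟩
    obtain ⟨j, hj, hjw⟩ := exists_bitsOf w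
    refine Finset.mem_image.2 ⟨j, ?_, hjw⟩
    unfold numT
    rw [Finset.mem_filter, Finset.mem_range]
    exact ⟨hj, by rw [hjw]; exact hw⟩
  refine (Set.ncard_le_ncard h1 (Finset.finite_toSet _)).trans ?_
  rw [Set.ncard_coe_finset]
  refine Finset.card_biUnion_le.trans ?_
  have h2 : ∀ i ∈ Finset.range (n + 1), ((numT T i).image (bitsOf i)).card ≤
      S.eval n + 1 + 2 ^ n₀ := by
    intro i hi
    refine Finset.card_image_le.trans ?_
    by_cases hin : n₀ ≤ i
    · have h3 := hcon i hin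
      have h4 := card_numT T i
      have h5 : S.eval i ≤ S.eval n := eval_mono S (by
        have := Finset.mem_range.1 hi
        omega)
      have h6 : 0 < 2 ^ n₀ := by positivity
      omega
    · have h3 : (numT T i).card ≤ 2 ^ i := by
        unfold numT
        exact (Finset.card_filter_le _ _).trans (by rw [Finset.card_range])
      have h4 : 2 ^ i ≤ 2 ^ n₀ := Nat.pow_le_pow_right (by norm_num) (by omega)
      omega
  refine (Finset.sum_le_sum h2).trans ?_
  rw [Finset.sum_const, Finset.card_range, smul_eq_mul]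
  simp

section

variable (θ : Par) (T : Set (List Bool)) (O : Oracle)

/-- The size of the random sample of questions. -/
noncomputable def uu (n : ℕ) : ℕ := θ.P.eval (2 * n) + n

/-- The event: some advice of length `c` and some value of the empty question give the right
answers on the intervals. -/
def EvC' (n N : ℕ) (τ : ℕ → ℕ) (c : ℕ) (a : Fin N → Bool) : Prop :=
  ∃ h ∈ strsOf c ×ˢ (univ : Finset Bool), ∀ i ∈ Finset.range (2 * uu θ n),
      QF (θ.m (2 * n) c) (leafG θ.M (fun a : Fin N → Bool => mix T (orc N a) O)) θ.k true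
        (pairBits (bitsOf n (τ i) ++ bitsOf n (τ (i + 1))) h.1) a =
      (par (blkT T N n (τ i) (τ (i + 1))) a ^^ con T O n (τ i) (τ (i + 1)) h.2)

/-- The event: some advice and some value of the empty question give the right answers on the
intervals. -/
def EvT (n N : ℕ) (τ : ℕ → ℕ) (a : Fin N → Bool) : Prop :=
  ∃ c ∈ Finset.range (θ.p'.eval (2 * n) + 1), EvC' θ T O n N τ c a

open Classical in
theorem ev_small {n N : ℕ} {τ : ℕ → ℕ} (hn : 1 ≤ n) (hN : 2 ^ (n + 1) ≤ N)
    (h1 : ∀ i ≤ 2 * uu θ n, τ i < 2 ^ n)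
    (h2 : ∀ i j, i ≤ j → j ≤ 2 * uu θ n → τ i ≤ τ j)
    (h3 : ∀ i < 2 * uu θ n, ((Finset.Ioc (τ i) (τ (i + 1))).filter (· ∈ numT T n)).card =
      ((2 * uu θ n) * (2 * uu θ n) + 1) * ((24 * (2 * uu θ n)) ^ θ.k * (2 * uu θ n))) :
    Ex unif (fun a : Fin N → Bool => if EvT θ T O n N τ a then (1 : ℝ) else 0) ≤
      ((θ.k + 1) + 2 * uu θ n * (2 * uu θ n * (2 * uu θ n) + 1)) * (1 / 2) ^ uu θ n := by
  set u := uu θ n with hu
  have hE : θ.P.eval (2 * n) = θ.p'.eval (2 * n) + θ.L.eval (2 * n) + 2 +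
      θ.M.p.eval (θ.L.eval (2 * n)) := by
    simp [Par.P, Polynomial.eval_comp]
  have hu' : u = θ.P.eval (2 * n) + n := hu
  have hu1 : 1 ≤ 2 * u := by omega
  have hp'L : θ.p'.eval (2 * n) ≤ θ.L.eval (2 * n) := by rw [θ.eval_L]; omega
  -- the bound for advice of length c
  have hc : ∀ c ∈ Finset.range (θ.p'.eval (2 * n) + 1), Ex unif (fun a : Fin N → Bool =>
      if EvC' θ T O n N τ c a then (1 : ℝ) else 0) ≤
      (θ.k * 2 ^ (θ.L.eval (2 * n) + 2) + ((2 * u : ℕ) : ℝ) * (((2 * u : ℕ) : ℝ) * ((2 * u : ℕ) : ℝ)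
        + 1) + 2 ^ (θ.L.eval (2 * n) + 2)) * (1 / 2) ^ (2 * u) := by
    intro c hc
    rw [Finset.mem_range, Nat.lt_succ_iff] at hc
    have hlen := θ.len_le hc
    have g0 : ∀ a : Fin N → Bool, EvC' θ T O n N τ c a ↔
        ∃ h ∈ strsOf c ×ˢ (univ : Finset Bool), ∀ i ∈ Finset.range (2 * u),
        QF (θ.m (2 * n) c) (leafG θ.M (fun a : Fin N → Bool => mix T (orc N a) O)) θ.k true
          ((fun i (h : List Bool × Bool) => pairBits (bitsOf n (τ i) ++ bitsOf n (τ (i + 1))) h.1)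
            i h) a = (par ((fun i => blkT T N n (τ i) (τ (i + 1))) i) a ^^
            (fun i (h : List Bool × Bool) => con T O n (τ i) (τ (i + 1)) h.2) i h) :=
      fun a => Iff.rfl
    have g1 := gl (t := 2 * u) hu1 (θ.m (2 * n) c)
      (leafG θ.M (fun a : Fin N → Bool => mix T (orc N a) O)) θ.k (2 * (2 * n) + 1 + c) ?_
      (Finset.range (2 * u)) (fun i => blkT T N n (τ i) (τ (i + 1)))
      (fun i (h : List Bool × Bool) => con T O n (τ i) (τ (i + 1)) h.2) ?_
      (strsOf c ×ˢ (univ : Finset Bool))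
      (fun i (h : List Bool × Bool) => pairBits (bitsOf n (τ i) ++ bitsOf n (τ (i + 1))) h.1) ?_
      (Finset.card_range _) ?_ (θ.L.eval (2 * n) + 2) (by omega) ?_
    · refine le_trans (Ex_mono unif_nonneg fun a => ?_) g1
      by_cases hh : EvC' θ T O n N τ c a
      · rw [if_pos hh, if_pos ((g0 a).1 hh)]
      · rw [if_neg hh]
        positivity
    · intro y hy
      refine (dtr_leafG θ.M (simple_mix T O N) y).mono ?_
      calc θ.M.p.eval y.length ≤ θ.M.p.eval (θ.L.eval (2 * n)) := eval_mono _ (by omega)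
        _ ≤ 2 * u := by omega
    · intro i hi j hj hij
      rw [Finset.mem_range] at hi hj
      apply blkT_disj T (h1 _ (by omega)) (h1 _ (by omega))
      rw [Finset.disjoint_left]
      intro x hx hx'
      rw [Finset.mem_Ioc] at hx hx'
      rcases lt_or_gt_of_ne hij with h | h
      · have := h2 (i + 1) j (by omega) (by omega)
        omega
      · have := h2 (j + 1) i (by omega) (by omega)
        omega
    · intro i _ h hh
      rw [Finset.mem_product] at hh
      obtain ⟨j, _, hj⟩ := Finset.mem_image.1 hh.1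
      rw [length_pairBits, List.length_append, length_bitsOf, length_bitsOf, ← hj, length_bitsOf]
      omega
    · intro i hi
      rw [Finset.mem_range] at hi
      rw [blkT_card T hN (h1 _ (by omega)), ← h3 i hi]
      refine Finset.card_le_card ?_
      intro j hj
      rw [Finset.mem_filter] at hj ⊢
      refine ⟨hj.1, ?_⟩
      have h4 := hj.2
      unfold numT at h4
      exact (Finset.mem_filter.1 h4).2
    · rw [Finset.card_product, Finset.card_univ, Fintype.card_bool]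
      have h4 := card_strsOf c
      calc (strsOf c).card * 2 ≤ 2 ^ c * 2 := Nat.mul_le_mul_right _ h4
        _ = 2 ^ (c + 1) := by ring
        _ ≤ 2 ^ (θ.L.eval (2 * n) + 2) := Nat.pow_le_pow_right (by norm_num) (by omega)
  -- union over c
  have hU : Ex unif (fun a : Fin N → Bool => if EvT θ T O n N τ a then (1 : ℝ) else 0) ≤
      ∑ c ∈ Finset.range (θ.p'.eval (2 * n) + 1), Ex unif (fun a : Fin N → Bool =>
      if EvC' θ T O n N τ c a then (1 : ℝ) else 0) := by
    rw [← Ex_sum]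
    apply Ex_mono unif_nonneg
    intro a
    by_cases hE : EvT θ T O n N τ a
    · rw [if_pos hE]
      obtain ⟨c, hc, h⟩ := hE
      refine le_trans ?_ (Finset.single_le_sum (fun c _ => by positivity) hc)
      rw [if_pos h]
    · rw [if_neg hE]
      exact Finset.sum_nonneg fun c _ => by positivity
  refine hU.trans ((Finset.sum_le_sum hc).trans ?_)
  rw [Finset.sum_const, Finset.card_range, nsmul_eq_mul]
  -- numeric
  have hp1 : ((θ.p'.eval (2 * n) + 1 : ℕ) : ℝ) ≤ 2 ^ θ.p'.eval (2 * n) := by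
    have : θ.p'.eval (2 * n) + 1 ≤ 2 ^ θ.p'.eval (2 * n) := Nat.lt_two_pow_self
    exact_mod_cast this
  have hpow : (2 : ℝ) ^ θ.p'.eval (2 * n) * 2 ^ (θ.L.eval (2 * n) + 2) ≤ 2 ^ u := by
    rw [← pow_add]
    exact pow_le_pow_right₀ (by norm_num) (by omega)
  have hpow' : (2 : ℝ) ^ θ.p'.eval (2 * n) ≤ 2 ^ u := pow_le_pow_right₀ (by norm_num) (by omega)
  have hhalf : (1 / 2 : ℝ) ^ (2 * u) = (1 / 2) ^ u * (1 / 2) ^ u := by
    rw [two_mul, pow_add]
  have hone : (2 : ℝ) ^ u * (1 / 2) ^ u = 1 := by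
    rw [← mul_pow]
    norm_num
  have hz : (0 : ℝ) ≤ (θ.k * 2 ^ (θ.L.eval (2 * n) + 2) + ((2 * u : ℕ) : ℝ) *
      (((2 * u : ℕ) : ℝ) * ((2 * u : ℕ) : ℝ) + 1) + 2 ^ (θ.L.eval (2 * n) + 2)) *
      (1 / 2) ^ (2 * u) := by positivity
  refine (mul_le_mul_of_nonneg_right hp1 hz).trans ?_
  set X : ℝ := ((2 * u : ℕ) : ℝ) * (((2 * u : ℕ) : ℝ) * ((2 * u : ℕ) : ℝ) + 1) with hX
  have hX0 : 0 ≤ X := by positivity
  have e1 : (2 : ℝ) ^ θ.p'.eval (2 * n) * ((θ.k * 2 ^ (θ.L.eval (2 * n) + 2) + X +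
      2 ^ (θ.L.eval (2 * n) + 2)) * (1 / 2) ^ (2 * u)) =
      ((θ.k + 1) * (2 ^ θ.p'.eval (2 * n) * 2 ^ (θ.L.eval (2 * n) + 2)) +
        X * 2 ^ θ.p'.eval (2 * n)) * ((1 / 2) ^ u * (1 / 2) ^ u) := by
    rw [hhalf]
    ring
  rw [e1]
  have e2 : ((θ.k + 1 : ℝ) * (2 ^ θ.p'.eval (2 * n) * 2 ^ (θ.L.eval (2 * n) + 2)) +
        X * 2 ^ θ.p'.eval (2 * n)) ≤ ((θ.k + 1) + X) * 2 ^ u := by
    have e3 := mul_le_mul_of_nonneg_left hpow (show (0 : ℝ) ≤ θ.k + 1 by positivity)
    have e4 := mul_le_mul_of_nonneg_left hpow' hX0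
    refine (add_le_add e3 e4).trans (le_of_eq ?_)
    ring
  refine (mul_le_mul_of_nonneg_right e2 (by positivity)).trans (le_of_eq ?_)
  calc (((θ.k : ℝ) + 1) + X) * 2 ^ u * ((1 / 2) ^ u * (1 / 2) ^ u) =
      (((θ.k : ℝ) + 1) + X) * (1 / 2) ^ u * (2 ^ u * (1 / 2) ^ u) := by ring
    _ = (((θ.k : ℝ) + 1) + X) * (1 / 2) ^ u := by rw [hone, mul_one]
    _ = _ := by rw [hX]; push_cast; ring

/-- The oracles for which the parameters are good. -/
def EasyT : Set Oracle :=
  {C | ∃ (V : List Bool → List Bool) (h : ℕ → List Bool),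
    (∀ x, θ.M.out (mix T C O) x = some (V x)) ∧ (∀ n, (h n).length ≤ θ.p'.eval n) ∧
    ∀ x, x ∈ Dlang (mix T C O) ↔ Quant (θ.p.eval (pairBits x (h x.length)).length) V θ.k true
      (pairBits x (h x.length))}

theorem mem_easyT {C : Oracle} (h : IsPHpoly (mix T C O) (Dlang (mix T C O))) :
    ∃ θ, C ∈ EasyT θ T O := by
  obtain ⟨L', h, p', ⟨V, p, k, ⟨M, hM⟩, hL'⟩, hh, hx⟩ := h
  exact ⟨⟨M, p, k, p'⟩, V, h, hM, hh, fun x => (hx x).trans (hL' _)⟩

theorem evT_of_easyT : ∃ Q : Polynomial ℕ, ∀ C ∈ EasyT θ T O, ∀ (n N : ℕ) (τ : ℕ → ℕ),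
    (∀ i ≤ 2 * uu θ n, τ i < 2 ^ n) → (∀ i j, i ≤ j → j ≤ 2 * uu θ n → τ i ≤ τ j) →
    2 ^ (Q.eval n + 1) ≤ N → EvT θ T O n N τ (pre N C) := by
  obtain ⟨qb, hqb⟩ := Alg.out_local θ.M
  refine ⟨(qb.comp θ.L).comp (2 * Polynomial.X) + Polynomial.X, ?_⟩
  rintro C ⟨V, h, hM, hh, hx⟩ n N τ hτ hτ' hN
  have hQ : ((qb.comp θ.L).comp (2 * Polynomial.X) + Polynomial.X).eval n =
      qb.eval (θ.L.eval (2 * n)) + n := by
    simp [Polynomial.eval_comp]
  rw [hQ] at hN
  have hV : ∀ y : List Bool, y.length ≤ θ.L.eval (2 * n) → (V y = [true] ↔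
      leafG θ.M (fun a : Fin N → Bool => mix T (orc N a) O) y (pre N C) = true) := by
    intro y hy
    obtain ⟨Q, _, hQl, hQA⟩ := hqb (mix T C O) y
    have h1 : θ.M.out (mix T (orc N (pre N C)) O) y = θ.M.out (mix T C O) y := by
      apply hQA
      intro q hq
      by_cases hT : q ∈ T
      · rw [mix_mem hT, mix_mem hT]
        apply orc_pre
        have h2 := idx_lt q
        have h3 : q.length ≤ qb.eval (θ.L.eval (2 * n)) := (hQl q hq).trans (eval_mono _ hy)
        have h4 : 2 ^ (q.length + 1) ≤ 2 ^ (qb.eval (θ.L.eval (2 * n)) + n + 1) :=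
          Nat.pow_le_pow_right (by norm_num) (by omega)
        omega
      · rw [mix_not_mem hT, mix_not_mem hT]
    unfold leafG
    rw [h1, hM y, decide_eq_true_eq, Option.some.injEq]
  refine ⟨(h (2 * n)).length, Finset.mem_range.2 (Nat.lt_succ_of_le (hh _)),
    (h (2 * n), mix T C O []), ?_, ?_⟩
  · rw [Finset.mem_product]
    exact ⟨mem_strsOf _, Finset.mem_univ _⟩
  intro i hi
  rw [Finset.mem_range] at hi
  have hlen : (bitsOf n (τ i) ++ bitsOf n (τ (i + 1))).length = 2 * n := by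
    rw [List.length_append, length_bitsOf, length_bitsOf]
    ring
  have h1 := hx (bitsOf n (τ i) ++ bitsOf n (τ (i + 1)))
  rw [hlen, length_pairBits, hlen] at h1
  have hN' : 2 ^ (n + 1) ≤ N :=
    (Nat.pow_le_pow_right (by norm_num) (by omega)).trans hN
  have h2 := mem_dlang_mix T C O hN' (hτ' i (i + 1) (by omega) (by omega)) (hτ (i + 1) (by omega))
  have h3 := quant_iff' (m := θ.m (2 * n) (h (2 * n)).length) (θ.L.eval (2 * n)) hV θ.k true
    (pairBits (bitsOf n (τ i) ++ bitsOf n (τ (i + 1))) (h (2 * n))) (by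
      rw [length_pairBits, hlen]
      exact θ.len_le (hh _))
  have h4 : QF (θ.m (2 * n) (h (2 * n)).length)
      (leafG θ.M (fun a : Fin N → Bool => mix T (orc N a) O)) θ.k true
      (pairBits (bitsOf n (τ i) ++ bitsOf n (τ (i + 1))) (h (2 * n))) (pre N C) = true ↔
      (par (blkT T N n (τ i) (τ (i + 1))) (pre N C) ^^
        con T O n (τ i) (τ (i + 1)) (mix T C O [])) = true := by
    rw [← h2, h1, ← h3]
    rfl
  exact Bool.eq_iff_iff.2 h4

theorem bound_tendsto (k : ℕ) : Filter.Tendsto (fun u : ℕ => ((k : ℝ) + 1 +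
    2 * u * (2 * u * (2 * u) + 1)) * (1 / 2) ^ u) Filter.atTop (nhds 0) := by
  have h0 := tendsto_pow_const_mul_const_pow_of_abs_lt_one 0 (r := (1 / 2 : ℝ))
    (by rw [abs_of_pos] <;> norm_num)
  have h1 := tendsto_pow_const_mul_const_pow_of_abs_lt_one 1 (r := (1 / 2 : ℝ))
    (by rw [abs_of_pos] <;> norm_num)
  have h3 := tendsto_pow_const_mul_const_pow_of_abs_lt_one 3 (r := (1 / 2 : ℝ))
    (by rw [abs_of_pos] <;> norm_num)
  have h := ((h0.const_mul ((k : ℝ) + 1)).add (h1.const_mul 2)).add (h3.const_mul 8)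
  simp only [mul_zero, add_zero] at h
  refine h.congr fun u => ?_
  ring

theorem measure_easyT (hT : ¬ Sparse T) : randomOracle (EasyT θ T O) = 0 := by
  classical
  obtain ⟨Q, hQ⟩ := evT_of_easyT θ T O
  have h1 : ∀ δ : ℝ, 0 < δ → randomOracle (EasyT θ T O) ≤ ENNReal.ofReal δ := by
    intro δ hδ
    obtain ⟨n₁, hn₁⟩ := Filter.eventually_atTop.1
      ((bound_tendsto θ.k).eventually (gt_mem_nhds hδ))
    let U : Polynomial ℕ := 2 * (θ.P.comp (2 * Polynomial.X) + Polynomial.X)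
    have hU : ∀ n, U.eval n = 2 * uu θ n := by
      intro n
      simp [U, uu, Polynomial.eval_comp]
    obtain ⟨n, hn, hS⟩ := exists_large hT (U * ((U * U + 1) * ((24 * U) ^ θ.k * U))) (n₁ + 1)
    have hS' : (2 * uu θ n) * ((2 * uu θ n * (2 * uu θ n) + 1) *
        ((24 * (2 * uu θ n)) ^ θ.k * (2 * uu θ n))) ≤
        ((Finset.Ioc 0 (2 ^ n - 1)).filter (· ∈ numT T n)).card := by
      refine le_trans (le_of_eq ?_) hS
      simp [Polynomial.eval_mul, Polynomial.eval_add, Polynomial.eval_pow, hU]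
    obtain ⟨τ, h2, h3, h4⟩ := exists_split (numT T n) (2 ^ n - 1) (2 * uu θ n) _ hS'
    have hpos : 0 < 2 ^ n := by positivity
    have h2' : ∀ i ≤ 2 * uu θ n, τ i < 2 ^ n := fun i hi => by
      have := h2 i hi
      omega
    obtain ⟨N, hN1, hN2⟩ : ∃ N, 2 ^ (Q.eval n + 1) ≤ N ∧ 2 ^ (n + 1) ≤ N :=
      ⟨max (2 ^ (Q.eval n + 1)) (2 ^ (n + 1)), le_max_left _ _, le_max_right _ _⟩
    refine (measure_le_Ex (EvT θ T O n N τ) _ fun C hC => hQ C hC n N τ h2' h3 hN1).trans ?_
    apply ENNReal.ofReal_le_ofReal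
    refine (ev_small θ T O (by omega) hN2 h2' h3 h4).trans ?_
    have h5 : n₁ ≤ uu θ n := by
      unfold uu
      omega
    exact (hn₁ _ h5).le
  by_contra hne
  have h3 : 0 < randomOracle (EasyT θ T O) := pos_iff_ne_zero.2 hne
  obtain ⟨δ, hδ0, hδ⟩ := ENNReal.lt_iff_exists_nnreal_btwn.1 h3
  have h4 : (0 : ℝ) < (δ : ℝ) := by exact_mod_cast hδ0
  have h5 := h1 δ h4
  rw [ENNReal.ofReal_coe_nnreal] at h5
  exact absurd (lt_of_lt_of_le hδ h5) (lt_irrefl _)

end

/-- Replacing the bits of an arbitrary oracle on a set which is not sparse by random bits. -/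
theorem ae_hard (T : Set (List Bool)) (hT : ¬ Sparse T) (O : Oracle) :
    ∀ᵐ C ∂randomOracle, ¬ IsPHpoly (mix T C O) (Dlang (mix T C O)) := by
  rw [ae_iff]
  refine measure_mono_null (t := ⋃ θ, EasyT θ T O) ?_
    (measure_iUnion_null fun θ => measure_easyT θ T O hT)
  intro C hC
  simp only [Set.mem_ofPred_eq, not_not] at hC
  obtain ⟨θ, hθ⟩ := mem_easyT T O hC
  exact Set.mem_iUnion.2 ⟨θ, hθ⟩

end Pool.Agent.Helper67.PHP
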