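import Pool.Agent.Helper67.PHP.CombC
import Pool.Agent.H620R2.Gauge.Blk
import Pool.Agent.H943R5.GC.N6

/-! General tools: decision trees, quantifiers, measure of events. -/

set_option autoImplicit false

namespace Pool.Agent.Helper67.PHP

open Pool.Agent.NPC Finset H568R2 Pool.Agent.H676 Pool.Agent.H620R2.Gauge MeasureTheory

/-- Every answer of the oracle `Φ a` is a constant or one of the bits of `a`. -/
def Simple {I : Type*} (Φ : (I → Bool) → Oracle) : Prop :=
  ∀ q : List Bool, (∃ i, ∀ a, Φ a q = a i) ∨ ∃ c, ∀ a, Φ a q = c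

theorem Simple.update {I : Type*} [DecidableEq I] {Φ : (I → Bool) → Oracle} (h : Simple Φ) (i : I)
    (b : Bool) : Simple (fun a => Φ (Function.update a i b)) := by
  intro q
  rcases h q with ⟨j, hj⟩ | ⟨c, hc⟩
  · by_cases hji : j = i
    · right
      refine ⟨b, fun a => ?_⟩
      change Φ (Function.update a i b) q = b
      rw [hj, hji, Function.update_self]
    · left
      refine ⟨j, fun a => ?_⟩
      change Φ (Function.update a i b) q = a j
      rw [hj, Function.update_of_ne hji]
  · exact Or.inr ⟨c, fun a => hc _⟩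

section

variable {I : Type*} [Fintype I] [DecidableEq I]

theorem dtr_run' (M : Alg) (y : List Bool) : ∀ (n : ℕ) (Φ : (I → Bool) → Oracle), Simple Φ →
    ∀ acc : List Bool, DTr n (fun a : I → Bool => decide (M.run (Φ a) y n acc = some [true])) := by
  intro n
  induction n with
  | zero =>
    intro Φ _ acc
    exact ⟨false, fun a => by simp [Alg.run]⟩
  | succ n ih =>
    intro Φ hΦ acc
    rcases hq : M.D (pairBits y acc) with _ | ⟨c, q⟩
    · exact DTr.const ⟨false, fun a => by simp [Alg.run, hq]⟩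
    · cases c with
      | true => exact DTr.const ⟨decide (q = [true]), fun a => by simp [Alg.run, hq]⟩
      | false =>
        rcases hΦ q with ⟨i, hi⟩ | ⟨c, hc⟩
        · refine Or.inr ⟨i, fun b => ?_⟩
          have h1 := ih _ (hΦ.update i b) (acc ++ [b])
          have h2 : (fun a : I → Bool => decide (M.run (Φ (Function.update a i b)) y (n + 1) acc =
              some [true])) = fun a => decide (M.run (Φ (Function.update a i b)) y n
              (acc ++ [b]) = some [true]) := by
            funext a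
            simp only [Alg.run, hq, hi, Function.update_self]
          rw [h2]
          exact h1
        · have h2 : (fun a : I → Bool => decide (M.run (Φ a) y (n + 1) acc = some [true])) =
              fun a => decide (M.run (Φ a) y n (acc ++ [c]) = some [true]) := by
            funext a
            simp only [Alg.run, hq, hc]
          rw [h2]
          exact (ih _ hΦ (acc ++ [c])).succ

/-- The leaf functions for a simple family of oracles. -/
def leafG (M : Alg) (Φ : (I → Bool) → Oracle) (y : List Bool) (a : I → Bool) : Bool :=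
  decide (M.out (Φ a) y = some [true])

theorem dtr_leafG (M : Alg) {Φ : (I → Bool) → Oracle} (hΦ : Simple Φ) (y : List Bool) :
    DTr (M.p.eval y.length) (leafG M Φ y) := dtr_run' M y _ Φ hΦ []

omit [Fintype I] [DecidableEq I] in
theorem quant_iff' {m : ℕ} {V : List Bool → List Bool} {F : List Bool → (I → Bool) → Bool}
    {a : I → Bool} (ℓ : ℕ) (hV : ∀ y : List Bool, y.length ≤ ℓ → (V y = [true] ↔ F y a = true)) :
    ∀ (k : ℕ) (b : Bool) (y : List Bool), y.length + k * (2 * m + 1) ≤ ℓ →
      (Quant m V k b y ↔ QF m F k b y a = true) := by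
  intro k
  induction k with
  | zero =>
    intro b y hy
    simp only [Quant, QF]
    exact hV y (by omega)
  | succ k ih =>
    intro b y hy
    have hlen : ∀ w : List Bool, w.length ≤ m → (pairBits w y).length + k * (2 * m + 1) ≤ ℓ := by
      intro w hw
      rw [length_pairBits]
      have : (k + 1) * (2 * m + 1) = k * (2 * m + 1) + (2 * m + 1) := by ring
      omega
    cases b with
    | true =>
      simp only [Quant, QF, decide_eq_true_eq]
      exact exists_congr fun w => and_congr_right fun hw => ih false _ (hlen w hw)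
    | false =>
      simp only [Quant, QF, decide_eq_true_eq]
      exact forall_congr' fun w => forall_congr' fun hw => ih true _ (hlen w hw)

open Classical in
/-- Blocks of size at least `(t ^ 2 + 1) (24 t) ^ k t` are beaten with small probability only. -/
theorem gl {t : ℕ} (ht : 1 ≤ t) (m : ℕ) (F : List Bool → (I → Bool) → Bool) (k ℓ : ℕ)
    (hF : ∀ y : List Bool, y.length ≤ ℓ + k * (2 * m + 1) → DTr t (F y))
    {ι η : Type*} (X : Finset ι) (B : ι → Finset I) (c : ι → η → Bool)
    (hB : ∀ x ∈ X, ∀ x' ∈ X, x ≠ x' → Disjoint (B x) (B x'))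
    (H : Finset η) (y : ι → η → List Bool) (hy : ∀ x ∈ X, ∀ h ∈ H, (y x h).length ≤ ℓ)
    (hX : X.card = t) (hs : ∀ x ∈ X, (t * t + 1) * ((24 * t) ^ k * t) ≤ (B x).card)
    (e : ℕ) (he1 : ℓ + k * (2 * m + 1) + 2 ≤ e) (he2 : H.card ≤ 2 ^ e) :
    Ex unif (fun a : I → Bool =>
      if ∃ h ∈ H, ∀ x ∈ X, QF m F k true (y x h) a = (par (B x) a ^^ c x h) then (1 : ℝ) else 0) ≤
      (k * 2 ^ e + t * (t * t + 1) + 2 ^ e) * (1 / 2) ^ t := by
  have htR : (1 : ℝ) ≤ (t : ℝ) := by exact_mod_cast ht
  set q : ℝ := 1 / (24 * t) with hq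
  have hq0 : 0 ≤ q := by positivity
  have hq1 : q ≤ 1 / 3 := by
    rw [hq, div_le_div_iff₀ (by positivity) (by norm_num)]
    linarith
  have hqk : q ^ k ≤ 1 := pow_le_one₀ hq0 (by linarith)
  have h1 := combC ht hq0 hq1 m F k ℓ hF X B c hB H y hy (t * t) ((24 * t) ^ k * t)
    (by rw [hX]) hs
  refine h1.trans ?_
  have hqt : 12 * (t : ℝ) * q = 1 / 2 := by
    rw [hq]; field_simp; norm_num
  rw [hqt, hX]
  have e1 : (1 - q ^ k) ^ ((24 * t) ^ k * t) ≤ (1 / 2 : ℝ) ^ t := by
    rw [pow_mul]
    refine pow_le_pow_left₀ (pow_nonneg (by linarith) _) ?_ t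
    have h2 : (1 - q ^ k) ≤ Real.exp (-(q ^ k)) := by
      have := Real.add_one_le_exp (-(q ^ k))
      linarith
    have h3 : (1 - q ^ k) ^ ((24 * t) ^ k) ≤ Real.exp (-(q ^ k)) ^ ((24 * t) ^ k) :=
      pow_le_pow_left₀ (by linarith) h2 _
    refine h3.trans ?_
    rw [← Real.exp_nat_mul]
    have h4 : (((24 * t) ^ k : ℕ) : ℝ) * -(q ^ k) = -1 := by
      rw [hq]
      push_cast
      rw [mul_neg, ← mul_pow]
      have : (24 * (t : ℝ)) * (1 / (24 * t)) = 1 := by field_simp
      rw [this, one_pow]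
    rw [h4]
    have h5 := Real.exp_one_gt_d9
    rw [Real.exp_neg, one_div]
    exact inv_anti₀ (by norm_num) (by linarith)
  have e2 : (k : ℝ) * 2 ^ (ℓ + k * (2 * m + 1) + 2) * (1 / 2) ^ (t + 1) ≤
      k * 2 ^ e * (1 / 2) ^ t := by
    have h2 : (2 : ℝ) ^ (ℓ + k * (2 * m + 1) + 2) ≤ 2 ^ e := pow_le_pow_right₀ (by norm_num) he1
    have h3 : (1 / 2 : ℝ) ^ (t + 1) ≤ (1 / 2) ^ t :=
      pow_le_pow_of_le_one (by norm_num) (by norm_num) (Nat.le_succ t)
    have h4 : (0 : ℝ) ≤ k * 2 ^ e := by positivity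
    calc (k : ℝ) * 2 ^ (ℓ + k * (2 * m + 1) + 2) * (1 / 2) ^ (t + 1) ≤
        k * 2 ^ e * (1 / 2) ^ (t + 1) := by
          apply mul_le_mul_of_nonneg_right _ (by positivity)
          exact mul_le_mul_of_nonneg_left h2 (by positivity)
      _ ≤ _ := mul_le_mul_of_nonneg_left h3 h4
  have e3 : (H.card : ℝ) * (1 / 2) ^ t ≤ 2 ^ e * (1 / 2) ^ t := by
    apply mul_le_mul_of_nonneg_right _ (by positivity)
    exact_mod_cast he2
  have e4 : (t : ℝ) * ((((t * t : ℕ) : ℝ) + 1) * (1 - q ^ k) ^ ((24 * t) ^ k * t)) ≤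
      t * (t * t + 1) * (1 / 2) ^ t := by
    rw [mul_assoc]
    push_cast
    apply mul_le_mul_of_nonneg_left _ (by positivity)
    exact mul_le_mul_of_nonneg_left e1 (by positivity)
  have e5 : (k * 2 ^ e + t * (t * t + 1) + 2 ^ e) * (1 / 2 : ℝ) ^ t =
      k * 2 ^ e * (1 / 2) ^ t + t * (t * t + 1) * (1 / 2) ^ t + 2 ^ e * (1 / 2) ^ t := by ring
  rw [e5]
  linarith

end

/-! ### Measure -/

open Pool.Agent.H628R3.RO (randomOracle)
open Pool.Agent.H943R5.GC (N6.cyl N6.meas_cyl N6.half_pow)

open Classical in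
/-- The measure of a set of oracles which is covered by an event of the first `N` bits. -/
theorem measure_le_Ex {N : ℕ} (E : (Fin N → Bool) → Prop) (X : Set Oracle)
    (hX : ∀ C ∈ X, E (pre N C)) :
    randomOracle X ≤ ENNReal.ofReal (Ex unif (fun a : Fin N → Bool => if E a then (1 : ℝ) else 0)) := by
  have h1 : X ⊆ ⋃ a ∈ univ.filter E, N6.cyl (List.ofFn a) := by
    intro C hC
    refine Set.mem_iUnion₂.2 ⟨pre N C, by simpa using hX C hC, ?_⟩
    intro i hi
    rw [List.getElem_ofFn]
    rfl
  refine (measure_mono h1).trans ((measure_biUnion_finset_le _ _).trans ?_)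
  have h3 : ∀ a ∈ univ.filter E, randomOracle (N6.cyl (List.ofFn a)) =
      ENNReal.ofReal ((1 / 2) ^ N) := by
    intro a _
    rw [N6.meas_cyl, List.length_ofFn, ENNReal.ofReal_pow (by norm_num)]
    congr 1
    rw [one_div, ENNReal.ofReal_inv_of_pos (by norm_num)]
    norm_num
  rw [Finset.sum_congr rfl h3, Finset.sum_const, nsmul_eq_mul, ← ENNReal.ofReal_natCast,
    ← ENNReal.ofReal_mul (by positivity)]
  apply ENNReal.ofReal_le_ofReal
  unfold Ex unif
  simp only [Finset.prod_const, Finset.card_univ, Fintype.card_fin]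
  rw [← Finset.mul_sum, Finset.sum_boole, mul_comm]

end Pool.Agent.Helper67.PHP
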