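import Pool.Agent.Helper67.PHP.Patch
import Pool.Agent.Helper67.PHP.Sparse

/-! Changing an oracle on a sparse set. -/

set_option autoImplicit false

namespace Pool.Agent.Helper67.PHP

open Pool.Agent.NPC Pool.Agent.H622R2 Pool.Agent.H620R2.Gauge

theorem conf_congr {M : SAlg} {B B' : Oracle} {m : ℕ} {x : List Bool} {N : ℕ}
    (hB : ∀ q : List Bool, q.length ≤ N → B' q = B q)
    (hN : ∀ s : List Bool, s.length ≤ m → (M.act (pairBits x s)).length ≤ N) :
    ∀ t, conf M B' m x t = conf M B m x t := by
  intro t
  induction t with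
  | zero => rfl
  | succ t ih =>
    rw [conf, conf, ih]
    congr 1
    apply hB
    rw [List.length_tail]
    have := hN _ (length_conf M B m x t)
    omega

section

variable {A B : Oracle} {L₁ : Set (List Bool)} (M : SAlg) (p : Polynomial ℕ)

/-- The question to the circuit with a table. -/
def WT (L₁ : Set (List Bool)) (τ g x c s : List Bool) : Prop :=
  pairBits (pairBits (pairBits τ x) (pairBits c s)) g ∈ L₁

/-- acceptance, with a table -/
def AccT (L₁ : Set (List Bool)) (τ g x : List Bool) : Prop :=
  ∃ w : List Bool, w.length ≤ mm p x + 1 ∧ ∃ s : List Bool, s.length ≤ mm p x ∧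
    (WT L₁ τ g x (cw (mm p x + 1) w) (pad (mm p x) s) ∧ M.act (pairBits x s) = [true, true])

theorem ph_accT (hL₁ : IsPH B L₁) :
    PHt B (fun z : List Bool => AccT M p L₁ (unpair (unpair z).2).1 (unpair (unpair z).2).2
      (unpair z).1) := by
  have hz : Poly (fun v : List Bool × List Bool × List Bool => v.2.2) :=
    Poly.snd (Poly.snd Poly.id)
  have hs : Poly (fun v : List Bool × List Bool × List Bool => v.1) := Poly.fst Poly.id
  have hw : Poly (fun v : List Bool × List Bool × List Bool => v.2.1) :=
    Poly.fst (Poly.snd Poly.id)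
  have hx := Poly.fst (poly_unpair.comp hz)
  have hτ := Poly.fst (poly_unpair.comp (Poly.snd (poly_unpair.comp hz)))
  have hg := Poly.snd (poly_unpair.comp (Poly.snd (poly_unpair.comp hz)))
  have hN := UPoly.add (upoly_mm p hx) (UPoly.const 1)
  have hact := (poly_of_polyTime M.act_poly).comp (poly_pairBits hx hs)
  have h1 := ((PHt.of_isPH hL₁).pre (poly_pairBits (poly_pairBits (poly_pairBits hτ hx)
    (poly_pairBits (poly_cw hN hw) (poly_pad (upoly_mm p hx) hs))) hg)).and
    (PHt.eq (A := B) hact (NPC.Poly.const [true, true]))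
  have k2 : Poly (fun v : List Bool × List Bool => (unpair v.2).1) :=
    Poly.fst (poly_unpair.comp (Poly.snd Poly.id))
  have h3 := h1.ex (b := fun v => mm p (unpair v.2).1) (upoly_mm p k2)
  have h4 := h3.ex (b := fun z => mm p (unpair z).1 + 1)
    (UPoly.add (upoly_mm p (Poly.fst poly_unpair)) (UPoly.const 1))
  exact h4

/-- If `B` and `A` can be computed from each other with the help of short tables, and polynomial
space relative to `A` is in the hierarchy relative to `A` with advice, then the same for `B`,
without advice. -/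
theorem transfer {R R' : List Bool → List Bool → Bool → Bool}
    (hR : Poly (fun p : List Bool × List Bool × Bool => R p.1 p.2.1 p.2.2))
    (hR' : Poly (fun p : List Bool × List Bool × Bool => R' p.1 p.2.1 p.2.2))
    {τ τ' : ℕ → List Bool} (hτ : Tabl R A B τ) (hτ' : Tabl R' B A τ') {t t' : Polynomial ℕ}
    (ht : ∀ n, (τ n).length ≤ t.eval n) (ht' : ∀ n, (τ' n).length ≤ t'.eval n)
    (H : ∀ L, IsPSPACE A L → IsPHpoly A L) : ∀ L, IsPSPACE B L → IsPH B L := by
  intro L hL
  refine karp_lipton (fun L hL => ?_) hL
  obtain ⟨M, p, hM⟩ := hL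
  have hc := isPHpoly_of_tabl hR' hτ' ht' (H _ (confL_pspace M R p hR A))
  obtain ⟨L₁, h, p₁, hL₁, hh, hx⟩ := hc
  obtain ⟨b, hb⟩ := CC.act_length M p
  -- lengths
  let len : ℕ → ℕ := fun n => 2 * (2 * (τ (b.eval n)).length + 1 + n) + 1 +
    (2 * (p.eval n + 1) + 1 + (p.eval n + 1))
  refine ⟨_, fun n => pairBits (τ (b.eval n)) (h (len n)),
    Polynomial.C 2 * t.comp b + Polynomial.C 1 + p₁.comp (Polynomial.C 4 * t.comp b +
      Polynomial.C 2 * Polynomial.X + Polynomial.C 3 * p + Polynomial.C 7),
    (ph_accT M p hL₁).isPH, fun n => ?_, fun x => ?_⟩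
  · rw [length_pairBits]
    have h1 := ht (b.eval n)
    have h2 := hh (len n)
    have h3 : len n ≤ (Polynomial.C 4 * t.comp b + Polynomial.C 2 * Polynomial.X +
        Polynomial.C 3 * p + Polynomial.C 7).eval n := by
      simp only [len, Polynomial.eval_add, Polynomial.eval_mul, Polynomial.eval_C,
        Polynomial.eval_X, Polynomial.eval_comp]
      omega
    have h4 := eval_mono p₁ h3
    simp only [Polynomial.eval_add, Polynomial.eval_mul, Polynomial.eval_C,
      Polynomial.eval_comp] at h4 ⊢
    omega
  · rw [mem_iff_conf hM x]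
    simp only [Set.mem_ofPred_eq, unpair_pairBits]
    have hconf : ∀ t, conf M (pat R A (τ (b.eval x.length))) (mm p x) x t =
        conf M B (mm p x) x t := by
      apply conf_congr (N := b.eval x.length) (hτ _)
      intro s hs
      exact hb x s hs
    have hW : ∀ c s : List Bool, c.length = mm p x + 1 → s.length ≤ mm p x →
        (WT L₁ (τ (b.eval x.length)) (h (len x.length)) x c (pad (mm p x) s) ↔
          s = conf M B (mm p x) x (valB c)) := by
      intro c s hc hs
      have h1 := hx (pairBits (pairBits (τ (b.eval x.length)) x) (pairBits c (pad (mm p x) s)))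
      have h2 : (pairBits (pairBits (τ (b.eval x.length)) x) (pairBits c
          (pad (mm p x) s))).length = len x.length := by
        rw [length_pairBits, length_pairBits, length_pairBits, hc, length_pad hs]
        simp only [len, mm]
      rw [h2, mem_confL] at h1
      unfold WT
      rw [← h1]
      change pad (mm p x) (conf M (pat R A (τ (b.eval x.length))) (mm p x) x (valB c)) = _ ↔ _
      rw [hconf]
      constructor
      · intro h2
        exact (pad_inj (length_conf _ _ _ _ _) hs h2).symm
      · intro h2
        rw [h2]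
    constructor
    · rintro ⟨t, ht, hacc⟩
      refine ⟨bitsOf (mm p x + 1) t, by rw [length_bitsOf], conf M B (mm p x) x t,
        length_conf _ _ _ _ _, ?_, hacc⟩
      rw [hW _ _ (length_cw (by rw [length_bitsOf])) (length_conf _ _ _ _ _),
        cw_of_length (length_bitsOf _ _), valB_bitsOf]
      have ht' : t < 2 ^ (mm p x + 1) := ht
      rw [Nat.mod_eq_of_lt ht']
    · rintro ⟨w, hw, s, hs, hWs, hacc⟩
      have hlt := valB_lt (cw (mm p x + 1) w)
      rw [length_cw hw] at hlt
      rw [hW _ _ (length_cw hw) hs] at hWs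
      refine ⟨_, hlt, ?_⟩
      show M.act (pairBits x (conf M B (mm p x) x _)) = _
      rw [← hWs]
      exact hacc

end

/-! ### Sparse sets -/

/-- the answer with a list of exceptions -/
def RS (τ q : List Bool) (b : Bool) : Bool :=
  b ^^ decide (q ∈ (unbits (List (List Bool)) τ).getD [])

theorem poly_RS : Poly (fun p : List Bool × List Bool × Bool => RS p.1 p.2.1 p.2.2) :=
  Poly.xor (Poly.snd (Poly.snd Poly.id)) (Poly.dec_mem (Poly.fst (Poly.snd Poly.id))
    (Poly.optGetD (poly_unbits.comp (Poly.fst Poly.id)) (NPC.Poly.const _)))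

theorem sz_list_le (l : List (List Bool)) (c : ℕ) (h : ∀ q ∈ l, q.length ≤ c) :
    sz l ≤ (4 * c + 2) * l.length + 1 := by
  induction l with
  | nil => simp
  | cons q l ih =>
    have h1 := ih fun r hr => h r (List.mem_cons_of_mem _ hr)
    have h2 := sz_listBool_le q
    have h3 := h q (List.mem_cons_self ..)
    rw [sz_list_cons, List.length_cons, mul_add, mul_one]
    omega

theorem exists_tabl {T : Set (List Bool)} (hT : Sparse T) {A B : Oracle}
    (hAB : ∀ q, q ∉ T → A q = B q) :
    ∃ (τ : ℕ → List Bool) (t : Polynomial ℕ), Tabl RS A B τ ∧ ∀ n, (τ n).length ≤ t.eval n := by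
  classical
  obtain ⟨r, hr⟩ := hT
  have hfin : ∀ n, {w : List Bool | A w ≠ B w ∧ w.length ≤ n}.Finite := by
    intro n
    apply (List.finite_length_le Bool n).subset
    intro w hw
    exact hw.2
  have hT' : ∀ n, {w : List Bool | w ∈ T ∧ w.length ≤ n}.Finite := by
    intro n
    apply (List.finite_length_le Bool n).subset
    intro w hw
    exact hw.2
  refine ⟨fun n => bits ((hfin n).toFinset.toList),
    (Polynomial.C 4 * Polynomial.X + Polynomial.C 2) * r + Polynomial.C 1, ?_, fun n => ?_⟩
  · intro n q hq
    unfold pat RS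
    rw [unbits_bits]
    have h1 : (q ∈ ((some ((hfin n).toFinset.toList)).getD [])) ↔ A q ≠ B q := by
      rw [Option.getD_some, Finset.mem_toList, Set.Finite.mem_toFinset]
      exact ⟨fun h => h.1, fun h => ⟨h, hq⟩⟩
    by_cases h : A q = B q
    · have h2 : ¬ q ∈ ((some ((hfin n).toFinset.toList)).getD []) := fun h3 => (h1.1 h3) h
      rw [decide_eq_false h2, h, Bool.xor_false]
    · have h2 := h1.2 h
      rw [decide_eq_true h2]
      revert h
      cases A q <;> cases B q <;> simp
  · rw [bits_length]
    refine (sz_list_le _ n ?_).trans ?_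
    · intro q hq
      rw [Finset.mem_toList, Set.Finite.mem_toFinset] at hq
      exact hq.2
    · rw [Finset.length_toList]
      have h1 : (hfin n).toFinset.card ≤ r.eval n := by
        rw [← Set.ncard_eq_toFinset_card _ (hfin n)]
        refine (Set.ncard_le_ncard ?_ (hT' n)).trans (hr n)
        intro w hw
        refine ⟨?_, hw.2⟩
        by_contra hc
        exact hw.1 (hAB w hc)
      have h2 := Nat.mul_le_mul_left (4 * n + 2) h1
      simp only [Polynomial.eval_add, Polynomial.eval_mul, Polynomial.eval_C,
        Polynomial.eval_X]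
      omega

/-- Changing an oracle on a sparse set does not change the answer to the question whether the
polynomial hierarchy equals polynomial space. -/
theorem sparse_invariant {T : Set (List Bool)} (hT : Sparse T) {A B : Oracle}
    (hAB : ∀ q, q ∉ T → A q = B q) :
    (∀ L, IsPSPACE A L → IsPH A L) ↔ ∀ L, IsPSPACE B L → IsPH B L := by
  obtain ⟨τ, t, h1, h2⟩ := exists_tabl hT hAB
  obtain ⟨τ', t', h1', h2'⟩ := exists_tabl hT (fun q hq => (hAB q hq).symm)
  exact ⟨fun H => transfer poly_RS poly_RS h1 h1' h2 h2' fun L hL => (H L hL).isPHpoly,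
    fun H => transfer poly_RS poly_RS h1' h1 h2' h2 fun L hL => (H L hL).isPHpoly⟩

end Pool.Agent.Helper67.PHP
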