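import Pool.Agent.Helper67.PHP.Closure
import Pool.Agent.Helper67.PHP.Interval

/-! Predicates on encodable types in the polynomial hierarchy and in polynomial space. -/

set_option autoImplicit false

namespace Pool.Agent.Helper67.PHP

open Pool.Agent.NPC Pool.Agent.H622R2 Pool.Agent.H620R2.Gauge

section

variable {α β σ : Type} [TEnc α] [TEnc β] [TDec α] [TDec β] [TEnc σ] [TDec σ]

/-- apply a function under the coding -/
def lft (f : α → β) (y : List Bool) : List Bool :=
  bits ((unbits α y).elim T.nil (fun a => toT (f a)))

omit [TDec β] in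
theorem lft_bits (f : α → β) (a : α) : lft f (bits a) = bits (f a) := by
  unfold lft
  rw [unbits_bits]
  rfl

omit [TDec β] in
theorem poly_lft {f : α → β} (hf : Poly f) : Poly (lft f) := by
  have h : Poly (fun y : List Bool => (unbits α y).elim T.nil (fun a => toT (f a))) :=
    Poly.optElim (h := fun _ a => toT (f a)) poly_unbits (NPC.Poly.const _)
      (Poly.toT' (hf.comp (Poly.snd Poly.id)))
  exact poly_of_polyTime (polyTime_bits h)

/-- a predicate in the polynomial hierarchy relative to an oracle -/
def PHt (A : Oracle) (P : α → Prop) : Prop := ∃ L, IsPH A L ∧ ∀ a, P a ↔ bits a ∈ L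

variable {A : Oracle}

omit [TDec α] in
theorem PHt.congr {P Q : α → Prop} (h : PHt A P) (e : ∀ a, Q a ↔ P a) : PHt A Q := by
  obtain ⟨L, hL, h⟩ := h
  exact ⟨L, hL, fun a => (e a).trans (h a)⟩

omit [TDec β] in
theorem PHt.pre {P : β → Prop} (h : PHt A P) {f : α → β} (hf : Poly f) :
    PHt A (fun a => P (f a)) := by
  obtain ⟨L, hL, h⟩ := h
  refine ⟨_, phPrecomp hL (poly_lft hf), fun a => ?_⟩
  show P (f a) ↔ lft f (bits a) ∈ L
  rw [h, lft_bits]

omit [TDec α] in
theorem PHt.not {P : α → Prop} (h : PHt A P) : PHt A (fun a => ¬ P a) := by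
  obtain ⟨L, hL, h⟩ := h
  exact ⟨_, phCompl hL, fun a => not_congr (h a)⟩

omit [TDec α] in
theorem PHt.and {P Q : α → Prop} (h : PHt A P) (h' : PHt A Q) : PHt A (fun a => P a ∧ Q a) := by
  obtain ⟨L, hL, h⟩ := h
  obtain ⟨L', hL', h'⟩ := h'
  exact ⟨_, phInter hL hL', fun a => and_congr (h a) (h' a)⟩

omit [TDec α] in
theorem PHt.or {P Q : α → Prop} (h : PHt A P) (h' : PHt A Q) : PHt A (fun a => P a ∨ Q a) := by
  obtain ⟨L, hL, h⟩ := h
  obtain ⟨L', hL', h'⟩ := h'
  exact ⟨_, phUnion hL hL', fun a => or_congr (h a) (h' a)⟩

omit [TDec α] in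
theorem PHt.imp {P Q : α → Prop} (h : PHt A P) (h' : PHt A Q) : PHt A (fun a => P a → Q a) :=
  (h.not.or h').congr fun a => by tauto

omit [TDec α] in
theorem PHt.iff {P Q : α → Prop} (h : PHt A P) (h' : PHt A Q) : PHt A (fun a => (P a ↔ Q a)) :=
  ((h.imp h').and (h'.imp h)).congr fun a => by tauto

theorem PHt.ofPoly {C : α → Bool} (hC : Poly C) : PHt A (fun a => C a = true) := by
  refine ⟨_, phOfPoly (C := fun y => (unbits α y).elim false C) ?_, fun a => ?_⟩
  · exact Poly.optElim (h := fun _ a => C a) poly_unbits (NPC.Poly.const _)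
      (hC.comp (Poly.snd Poly.id))
  · show _ ↔ (unbits α (bits a)).elim false C = true
    rw [unbits_bits]
    rfl

omit [TDec β] in
theorem PHt.eq [DecidableEq β] {f g : α → β} (hf : Poly f) (hg : Poly g) :
    PHt A (fun a => f a = g a) :=
  (PHt.ofPoly (Poly.decide_eq hf hg)).congr fun a => by simp

theorem PHt.orc {q : α → List Bool} (hq : Poly q) : PHt A (fun a => A (q a) = true) := by
  have h1 : Poly (fun y : List Bool => (unbits α y).elim [] q) :=
    Poly.optElim (h := fun _ a => q a) poly_unbits (NPC.Poly.const _) (hq.comp (Poly.snd Poly.id))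
  refine ⟨{y | A ((unbits α y).elim [] q) = true}, (isP_of_reduces
    ⟨_, polyTime_of_poly_list h1, fun x => Iff.rfl⟩).isPH, fun a => ?_⟩
  show _ ↔ A ((unbits α (bits a)).elim [] q) = true
  rw [unbits_bits]
  rfl

theorem PHt.of_isPH {L : Set (List Bool)} (h : IsPH A L) : PHt A (fun x : List Bool => x ∈ L) := by
  have h1 : Poly (fun y : List Bool => (unbits (List Bool) y).getD []) :=
    Poly.optGetD poly_unbits (NPC.Poly.const _)
  refine ⟨_, phPrecomp h h1, fun a => ?_⟩
  show _ ↔ (unbits (List Bool) (bits a)).getD [] ∈ L
  rw [unbits_bits]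
  rfl

theorem poly_bits : Poly (fun x : List Bool => bits x) :=
  poly_of_polyTime (polyTime_bits Poly.id)

theorem PHt.isPH {P : List Bool → Prop} (h : PHt A P) : IsPH A {x | P x} := by
  obtain ⟨L, hL, h⟩ := h
  have h2 := phPrecomp hL poly_bits
  convert h2 using 1
  ext x
  exact h x

theorem PHt.ex {P : List Bool × α → Prop} (h : PHt A P) {b : α → ℕ} (hb : UPoly b) :
    PHt A (fun a => ∃ w : List Bool, w.length ≤ b a ∧ P (w, a)) := by
  obtain ⟨L, hL, h⟩ := h
  have h1 : Poly (fun z : List Bool => (unbits α (unpair z).2).elim T.nil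
      (fun a => toT ((unpair z).1, a))) :=
    Poly.optElim (h := fun z a => toT ((unpair z).1, a))
      (poly_unbits.comp (Poly.snd poly_unpair)) (NPC.Poly.const _)
      (Poly.toT' (Poly.pair (Poly.fst (poly_unpair.comp (Poly.fst Poly.id))) (Poly.snd Poly.id)))
  have h2 : Poly (fun z : List Bool => bits ((unbits α (unpair z).2).elim T.nil
      (fun a => toT ((unpair z).1, a)))) := poly_of_polyTime (polyTime_bits h1)
  have h3 : UPoly (fun y : List Bool => (unbits α y).elim 0 b) := by
    have h4 : Poly (fun y : List Bool => (unbits α y).elim ([] : List Unit)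
        (fun a => List.replicate (b a) ())) :=
      Poly.optElim (h := fun _ a => List.replicate (b a) ()) poly_unbits (NPC.Poly.const _)
        (Poly.comp hb (Poly.snd Poly.id))
    exact h4.congr fun y => by rcases h : unbits α y with _ | a <;> simp only [h] <;> rfl
  refine ⟨_, phEx (phPrecomp hL h2) h3, fun a => ?_⟩
  simp only [Set.mem_ofPred_eq, unpair_pairBits, unbits_bits]
  refine exists_congr fun w => and_congr Iff.rfl ?_
  rw [h]
  rfl

theorem PHt.all {P : List Bool × α → Prop} (h : PHt A P) {b : α → ℕ} (hb : UPoly b) :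
    PHt A (fun a => ∀ w : List Bool, w.length ≤ b a → P (w, a)) :=
  ((h.not.ex hb).not).congr fun a => by simp

theorem PHt.bool {P : Bool × α → Prop} (h : PHt A P) (c : Bool) : PHt A (fun a => P (c, a)) :=
  h.pre (Poly.pair (NPC.Poly.const c) Poly.id)

theorem PHt.allBool {P : Bool × α → Prop} (h : PHt A P) : PHt A (fun a => ∀ c, P (c, a)) :=
  ((h.bool true).and (h.bool false)).congr
    fun a => by simp [and_comm]

/-! ### Polynomial space -/

/-- a predicate in polynomial space relative to an oracle -/
def PSt (A : Oracle) (P : α → Prop) : Prop := ∃ L, IsPSPACE A L ∧ ∀ a, P a ↔ bits a ∈ L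

omit [TDec α] in
theorem PSt.congr {P Q : α → Prop} (h : PSt A P) (e : ∀ a, Q a ↔ P a) : PSt A Q := by
  obtain ⟨L, hL, h⟩ := h
  exact ⟨L, hL, fun a => (e a).trans (h a)⟩

theorem PSt.isPSPACE {P : List Bool → Prop} (h : PSt A P) : IsPSPACE A {x | P x} := by
  obtain ⟨L, hL, h⟩ := h
  have h2 := hL.precomp poly_bits
  convert h2 using 1
  ext x
  exact h x

/-- A computation with a polynomially bounded typed memory. -/
theorem pst_of_seq (s0 : σ) (h0 : unbits σ [] = none)
    (stop : α → σ → Bool) (q : α → σ → List Bool) (nx : α → Bool → σ → σ) (acc : α → σ → Bool)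
    (hstop : Poly (fun p : α × σ => stop p.1 p.2)) (hq : Poly (fun p : α × σ => q p.1 p.2))
    (hnx : Poly (fun p : α × Bool × σ => nx p.1 p.2.1 p.2.2))
    (hacc : Poly (fun p : α × σ => acc p.1 p.2))
    (sq : α → ℕ → σ) (hs0 : ∀ a, sq a 0 = s0)
    (hsucc : ∀ a t, stop a (sq a t) = false → sq a (t + 1) = nx a (A (q a (sq a t))) (sq a t))
    (N : α → ℕ) (hN : ∀ a, stop a (sq a (N a)) = true)
    (hN' : ∀ a, ∀ t < N a, stop a (sq a t) = false)
    (p : Polynomial ℕ) (hp : ∀ a, ∀ t ≤ N a, sz (sq a t) ≤ p.eval (sz a)) :
    PSt A (fun a => acc a (sq a (N a)) = true) := by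
  -- the algorithm
  let act : List Bool → List Bool := fun v => (unbits α (unpair v).1).elim [true] (fun a =>
    if stop a ((unbits σ (unpair v).2).getD s0) = true then
      (if acc a ((unbits σ (unpair v).2).getD s0) = true then [true, true] else [true])
    else false :: q a ((unbits σ (unpair v).2).getD s0))
  let next : List Bool → List Bool := fun v => bits ((unbits α (unpair v).1).elim T.nil (fun a =>
    toT (nx a ((unpair v).2.head?.getD false) ((unbits σ (unpair v).2.tail).getD s0))))
  have hu1 : Poly (fun v : List Bool => (unpair v).1) := Poly.fst poly_unpair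
  have hu2 : Poly (fun v : List Bool => (unpair v).2) := Poly.snd poly_unpair
  have hactP : Poly act := by
    have e1 : Poly (fun p : List Bool × α => (p.2, (unbits σ (unpair p.1).2).getD s0)) :=
      Poly.pair (Poly.snd Poly.id) (Poly.optGetD (poly_unbits.comp (hu2.comp (Poly.fst Poly.id)))
        (NPC.Poly.const _))
    refine Poly.optElim (h := fun v a => if stop a ((unbits σ (unpair v).2).getD s0) = true then
      (if acc a ((unbits σ (unpair v).2).getD s0) = true then [true, true] else [true])
      else false :: q a ((unbits σ (unpair v).2).getD s0)) (poly_unbits.comp hu1)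
      (NPC.Poly.const _) ?_
    refine Poly.ite (Poly.decide_eq (hstop.comp e1) (NPC.Poly.const _)) (Poly.ite
      (Poly.decide_eq (hacc.comp e1) (NPC.Poly.const _)) (NPC.Poly.const _) (NPC.Poly.const _))
      (Poly.cons (NPC.Poly.const _) (hq.comp e1))
  have hnextP : PolyTime next := by
    refine polyTime_bits ?_
    have e1 : Poly (fun p : List Bool × α => (p.2, (unpair p.1).2.head?.getD false,
        (unbits σ (unpair p.1).2.tail).getD s0)) :=
      Poly.pair (Poly.snd Poly.id) (Poly.pair (Poly.optGetD
        (Poly.head? (hu2.comp (Poly.fst Poly.id))) (NPC.Poly.const _))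
        (Poly.optGetD (poly_unbits.comp (Poly.tail (hu2.comp (Poly.fst Poly.id))))
        (NPC.Poly.const _)))
    exact Poly.optElim (h := fun v a => toT (nx a ((unpair v).2.head?.getD false)
      ((unbits σ (unpair v).2.tail).getD s0))) (poly_unbits.comp hu1)
      (NPC.Poly.const _) (Poly.toT' (hnx.comp e1))
  let M : SAlg := ⟨act, polyTime_of_poly_list hactP, next, hnextP⟩
  have hact : ∀ y m, M.act (pairBits y m) = (unbits α y).elim [true] (fun a =>
      if stop a ((unbits σ m).getD s0) = true then
        (if acc a ((unbits σ m).getD s0) = true then [true, true] else [true])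
      else false :: q a ((unbits σ m).getD s0)) := by
    intro y m
    show act (pairBits y m) = _
    simp only [act, unpair_pairBits]
  have hnext : ∀ y m b, M.next (pairBits y (b :: m)) = bits ((unbits α y).elim T.nil (fun a =>
      toT (nx a b ((unbits σ m).getD s0)))) := by
    intro y m b
    show next (pairBits y (b :: m)) = _
    simp only [next, unpair_pairBits]
    rfl
  refine ⟨{y | ∃ a, unbits α y = some a ∧ acc a (sq a (N a)) = true}, ⟨M, p, fun y => ?_⟩,
    fun a => ?_⟩
  · rcases hy : unbits α y with _ | a
    · have h1 : ∀ m, M.act (pairBits y m) = [true] := by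
        intro m
        rw [hact, hy]
        rfl
      refine ⟨fun s hs => ?_, ⟨[], [], SAlg.Reach.start, h1 _, ?_⟩⟩
      · cases hs with
        | start => simp
        | step _ h => rw [h1] at h; simp at h
      · simp [hy]
    · have hyl : sz a = y.length := by
        rw [← bits_length, bits_of_unbits hy]
      have inv : ∀ m, M.Reach A y m → ∃ t ≤ N a, (unbits σ m).getD s0 = sq a t ∧
          (m = [] ∨ m = bits (sq a t)) := by
        intro m hm
        induction hm with
        | start => exact ⟨0, Nat.zero_le _, by rw [h0, hs0]; rfl, Or.inl rfl⟩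
        | @step m r _ hr ih =>
          obtain ⟨t, ht, h1, _⟩ := ih
          rw [hact, hy] at hr
          simp only [Option.elim_some, h1] at hr
          have hst : stop a (sq a t) = false := by
            by_contra hc
            rw [Bool.not_eq_false] at hc
            rw [if_pos hc] at hr
            split_ifs at hr <;> simp at hr
          rw [if_neg (by rw [hst]; simp)] at hr
          have hr' : r = q a (sq a t) := by
            simp only [List.cons.injEq, true_and] at hr
            exact hr.symm
          have htN : t < N a := by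
            rcases lt_or_eq_of_le ht with h | h
            · exact h
            · rw [h, hN a] at hst
              simp at hst
          have h2 : M.next (pairBits y (A r :: m)) = bits (sq a (t + 1)) := by
            rw [hnext, hy]
            simp only [Option.elim_some, h1]
            rw [hsucc a t hst, hr']
            rfl
          refine ⟨t + 1, htN, ?_, Or.inr h2⟩
          rw [h2, unbits_bits]
          rfl
      have reach : ∀ t ≤ N a, ∃ m, M.Reach A y m ∧ (unbits σ m).getD s0 = sq a t := by
        intro t
        induction t with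
        | zero => exact fun _ => ⟨[], SAlg.Reach.start, by rw [h0, hs0]; rfl⟩
        | succ t ih =>
          intro ht
          obtain ⟨m, h1, h2⟩ := ih (by omega)
          have hst := hN' a t (by omega)
          have h3 : M.act (pairBits y m) = false :: q a (sq a t) := by
            rw [hact, hy]
            simp only [Option.elim_some, h2]
            rw [if_neg (by rw [hst]; simp)]
          refine ⟨_, SAlg.Reach.step h1 h3, ?_⟩
          rw [hnext, hy]
          simp only [Option.elim_some, h2]
          have h4 : bits (toT (nx a (A (q a (sq a t))) (sq a t))) = bits (sq a (t + 1)) := by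
            rw [hsucc a t hst]
            rfl
          rw [h4, unbits_bits]
          rfl
      refine ⟨fun m hm => ?_, ?_⟩
      · obtain ⟨t, ht, _, h2⟩ := inv m hm
        rcases h2 with h2 | h2
        · rw [h2]
          simp
        · rw [h2, bits_length, ← hyl]
          exact hp a t ht
      · obtain ⟨m, h1, h2⟩ := reach (N a) le_rfl
        by_cases hac : acc a (sq a (N a)) = true
        · refine ⟨m, [true], h1, ?_, ?_⟩
          · rw [hact, hy]
            simp only [Option.elim_some, h2]
            rw [if_pos (hN a), if_pos hac]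
          · exact ⟨fun _ => rfl, fun _ => ⟨a, hy, hac⟩⟩
        · refine ⟨m, [], h1, ?_, ?_⟩
          · rw [hact, hy]
            simp only [Option.elim_some, h2]
            rw [if_pos (hN a), if_neg hac]
          · constructor
            · rintro ⟨a', h3, h4⟩
              rw [hy, Option.some.injEq] at h3
              subst h3
              exact absurd h4 hac
            · intro h
              simp at h
  · simp only [Set.mem_ofPred_eq, unbits_bits]
    simp

end

end Pool.Agent.Helper67.PHP
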